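import Pool.Agent.H37.AL.WinQ
import Pool.Agent.H37.AL.Uni2
import Pool.Agent.H69.AL.CodeC

/-! # [H37 AL ASM] The theorem from a certificate predicate on codes (abstract form) -/

namespace Pool.Agent.H37.AL

open Pool.Agent.H8.Siegel Pool.Agent.H69.AL

theorem primrec_factorial : Primrec Nat.factorial := by
  have h : Primrec₂ fun (_ : Unit) (n : ℕ) => Nat.factorial n := by
    refine (Primrec.nat_rec (f := fun _ : Unit => 1)
      (g := fun (_ : Unit) (p : ℕ × ℕ) => (p.1 + 1) * p.2) (Primrec.const 1) ?_).of_eq ?_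
    · exact Primrec.nat_mul.comp (Primrec.succ.comp (Primrec.fst.comp Primrec.snd))
        (Primrec.snd.comp Primrec.snd)
    · intro _ n
      induction n with
      | zero => rfl
      | succ n ih =>
        rw [Nat.factorial_succ, ← ih]
  exact h.comp (Primrec.const ()) Primrec.id

theorem primrec_CA : Primrec CA := by
  unfold CA
  have hsq : Primrec fun N : ℕ => (N + 1) ^ 2 := primrec_pow.comp Primrec.succ (Primrec.const 2)
  have h1 : Primrec fun N : ℕ => 2 * (N + 1) ^ 2 + 1 :=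
    Primrec.succ.comp (Primrec.nat_mul.comp (Primrec.const 2) hsq)
  have h2 : Primrec fun N : ℕ => (2 * N ^ 2).factorial :=
    primrec_factorial.comp (Primrec.nat_mul.comp (Primrec.const 2)
      (primrec_pow.comp Primrec.id (Primrec.const 2)))
  exact Primrec.nat_mul.comp h1 (primrec_pow.comp (Primrec.const 2) h2)

theorem primrec_WA : Primrec WA := by
  unfold WA
  exact Primrec.nat_mul.comp (Primrec.const 14000) (primrec_pow.comp Primrec.id (Primrec.const 8))

/-- the exponent in the search: Gelfond's exponent times `CA N` -/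
def CB (N : ℕ) : ℕ := (2 * (N + 1) ^ 2 + 1) * CA N

theorem primrec_CB : Primrec CB := by
  unfold CB
  have hsq : Primrec fun N : ℕ => (N + 1) ^ 2 := primrec_pow.comp Primrec.succ (Primrec.const 2)
  exact Primrec.nat_mul.comp (Primrec.succ.comp (Primrec.nat_mul.comp (Primrec.const 2) hsq))
    primrec_CA

/-- the exponent of the chains -/
def WB (N : ℕ) : ℕ := WA N + 1

theorem primrec_WB : Primrec WB := Primrec.succ.comp primrec_WA

variable {T : Type} [Primcodable T]

/-- **The theorem from a certificate predicate.** -/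
theorem asm (lev : Code → ℕ → T → Bool)
    (hlev : Primrec fun p : Code × ℕ × T => lev p.1 p.2.1 p.2.2) (szT : T → ℕ)
    (hsz : Primrec szT)
    (sound : ∀ (q : Code) (N : ℕ) (t : T), lev q N t = true → ExcQ (uni q) N (CA N) (szT t))
    (compl : ∀ (q : Code) (N : ℕ) (G : MvPolynomial (Fin 2) ℤ) (H : ℕ) (x y : ℤ), 3 ≤ N →
      Irreducible (MvPolynomial.map (Int.castRingHom ℚ) G) → G.totalDegree ≤ N →
      H98.AL.Star (uni q) G → 2 ≤ H → (∀ e, |G.coeff e| ≤ (H : ℤ)) → H98.AL.vl G x y = 0 →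
      H ^ CA N < sz x y → ∃ t, lev q N t = true ∧ szT t = sz x y) :
    ∃ A : Code × (ℕ × ℕ) × ℕ →. ℕ, Partrec A ∧ ∀ q : Code, Deg3 (uni q) →
      ∃ ρ ≤ (RF (uni q)).ncard, ∃ N0, (ρ = (RF (uni q)).ncard → N0 = 0) ∧
        ∀ n, ∃ E ∈ A (q, (ρ, N0), n), ∀ (F : MvPolynomial (Fin 2) ℤ) (H : ℕ),
          F.totalDegree ≤ n → H98.AL.Star (uni q) F → 2 ≤ H → (∀ e, |F.coeff e| ≤ (H : ℤ)) →
            ∀ x y : ℤ, H98.AL.vl F x y = 0 → sz x y ≤ H ^ E := by
  obtain ⟨A, hA, h⟩ := chain_unif2 lev hlev szT hsz WB CB primrec_WB primrec_CB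
    (fun N => Nat.le_add_left 1 _)
  refine ⟨fun z => A (z.1, z.2.1, (z.2.2, 2)), ?_, ?_⟩
  · have h1 : Computable fun z : Code × (ℕ × ℕ) × ℕ =>
        ((z.1, z.2.1, (z.2.2, 2)) : Code × (ℕ × ℕ) × (ℕ × ℕ)) :=
      (Primrec.pair Primrec.fst (Primrec.pair (Primrec.fst.comp Primrec.snd)
        (Primrec.pair (Primrec.snd.comp Primrec.snd) (Primrec.const 2)))).to_comp
    exact hA.comp h1
  intro q hq
  obtain ⟨ρ, hρ, N0, hN00, h2⟩ := h q (RF (uni q)).ncard (by
    intro N hN l hl hp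
    rw [← List.length_map szT]
    refine chain_lenQ hq hN le_rfl (l.map szT) ?_ ?_
    · intro z hz
      rw [List.mem_map] at hz
      obtain ⟨t, ht, rfl⟩ := hz
      exact sound q N t (hl t ht)
    · rw [List.pairwise_map]
      refine hp.imp fun {s t} hst => ?_
      refine lt_of_le_of_lt ?_ hst
      rcases Nat.eq_zero_or_pos (szT t) with h0 | h0
      · rw [h0]
        have hW : WA N ≠ 0 := by
          unfold WA
          positivity
        rw [zero_pow hW]
        exact Nat.zero_le _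
      · exact Nat.pow_le_pow_right h0 (Nat.le_succ _))
  refine ⟨ρ, hρ, N0, hN00, fun n => ?_⟩
  obtain ⟨B, hB, N, hnN, hN3, hCB, hlt⟩ := h2 n 2
  refine ⟨B, hB, fun F H hdeg hstar hH2 hH x y h0 => ?_⟩
  by_contra hcon
  push Not at hcon
  obtain ⟨G, -, hirr, hGd, hGs, hG0, hGH⟩ := fac_star hq hH2 (hdeg.trans hnN) hH hstar h0
  have h3 : 2 ≤ H ^ (2 * (N + 1) ^ 2 + 1) := by
    calc 2 ≤ H := hH2
      _ = H ^ 1 := (pow_one H).symm
      _ ≤ _ := Nat.pow_le_pow_right (by omega) (by omega)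
  have hCBB : CB N ≤ B := (Nat.lt_two_pow_self.le).trans hCB
  have h4 : (H ^ (2 * (N + 1) ^ 2 + 1)) ^ CA N < sz x y := by
    rw [← pow_mul]
    refine lt_of_le_of_lt ?_ hcon
    exact Nat.pow_le_pow_right (by omega) hCBB
  obtain ⟨t, ht1, ht2⟩ := compl q N G _ x y hN3 hirr hGd hGs h3 hGH hG0 h4
  have h5 := hlt t ht1
  rw [ht2] at h5
  have h6 : B < H ^ B := lt_of_lt_of_le Nat.lt_two_pow_self (Nat.pow_le_pow_left hH2 B)
  omega

/-- a partial recursive function which is total for a fixed first argument -/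
theorem comp_fix {α : Type} [Primcodable α] {A : α × ℕ →. ℕ} (hA : Partrec A) (a : α)
    (h : ∀ n, (A (a, n)).Dom) : ∃ E : ℕ → ℕ, Computable E ∧ ∀ n, E n ∈ A (a, n) := by
  refine ⟨fun n => (A (a, n)).get (h n), ?_, fun n => Part.get_mem _⟩
  have h1 : Partrec fun n : ℕ => A (a, n) :=
    hA.comp ((Primrec.pair (Primrec.const a) Primrec.id).to_comp)
  refine Partrec.of_eq h1 fun n => ?_
  exact (Part.some_get (h n)).symm

/-- the exponent as a total computable function, for each `q` -/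
theorem exp_of {A : Code × (ℕ × ℕ) × ℕ →. ℕ} (hA : Partrec A) (q : Code) (ρ N0 : ℕ)
    {P : ℕ → ℕ → Prop} (h : ∀ n, ∃ E ∈ A (q, (ρ, N0), n), P n E) :
    ∃ E : ℕ → ℕ, Computable E ∧ ∀ n, P n (E n) := by
  have h1 : Partrec fun z : (Code × (ℕ × ℕ)) × ℕ => A (z.1.1, z.1.2, z.2) :=
    hA.comp (Primrec.pair (Primrec.fst.comp Primrec.fst)
      (Primrec.pair (Primrec.snd.comp Primrec.fst) Primrec.snd)).to_comp
  obtain ⟨E, hE, hE'⟩ := comp_fix h1 (q, (ρ, N0)) (fun n => by
    obtain ⟨e, he, _⟩ := h n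
    exact Part.dom_iff_mem.2 ⟨e, he⟩)
  refine ⟨E, hE, fun n => ?_⟩
  obtain ⟨e, he, hP⟩ := h n
  rw [Part.mem_unique (hE' n) he]
  exact hP

end Pool.Agent.H37.AL
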