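import Pool.Agent.H4.SF.MKF
import Pool.Agent.H34.AC.RedR
import Pool.Agent.H97.NW.IRQ
import Pool.Agent.H97.NW.PGZ
import Pool.Agent.H97.NW.CVZ
import Pool.Agent.H97.XU.FCG

/-! # [H37 AL FAC] An integer zero of a curve with `k` at infinity lies on an irreducible factor of small height -/

namespace Pool.Agent.H37.AL

open Finset Polynomial Pool.Agent.H34.AC Pool.Agent.H97.NW Pool.Agent.H97.XU Pool.Agent.H72.ES H4AR

/-- the size of an integer point -/
def sz (x y : ℤ) : ℕ := max x.natAbs y.natAbs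

/-- the condition at infinity passes to divisors -/
theorem inf_dvd {k : Type} [Field k] {F G : MvPolynomial (Fin 2) ℤ} (h : F ∣ G)
    (hinf : INFR k G) : INFR k F := by
  intro K _ _ hK X Y hXY
  obtain ⟨R, rfl⟩ := h
  refine hinf K hK X Y ?_
  unfold vl at hXY ⊢
  rw [MvPolynomial.eval₂_mul, hXY, zero_mul]

/-- the condition at infinity implies `F ≠ 0` -/
theorem inf_ne {k : Type} [Field k] [NumberField k] (hk : 2 ≤ Module.finrank ℚ k)
    {F : MvPolynomial (Fin 2) ℤ} (hinf : INFR k F) : F ≠ 0 := by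
  rintro rfl
  have h1 : vl (0 : MvPolynomial (Fin 2) ℤ) (0 : ℤ) (0 : ℤ) = 0 := by
    unfold vl
    rw [MvPolynomial.eval₂_zero]
  obtain ⟨m, hm, _⟩ := exists_y k hk hinf (x0 := 0) (y0 := 0) (by exact_mod_cast h1)
  rw [MvPolynomial.support_zero] at hm
  exact absurd hm (Finset.notMem_empty m)

private theorem b2_toB {n H : ℕ} {G : MvPolynomial (Fin 2) ℤ} (hn : G.totalDegree ≤ n)
    (hH : ∀ e, |G.coeff e| ≤ (H : ℤ)) : B2 n n H (toB G) := by
  have key : ∀ i j, n < i + j → ((toB G).coeff j).coeff i = 0 := by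
    intro i j hij
    rw [toB_coeff]
    by_contra h'
    have h1 := MvPolynomial.le_totalDegree (MvPolynomial.mem_support_iff.2 h')
    rw [Finsupp.sum_fintype _ _ (fun _ => rfl), Fin.sum_univ_two] at h1
    simp at h1
    omega
  refine ⟨?_, fun j => ?_, fun j i => ?_⟩
  · rw [natDegree_le_iff_coeff_eq_zero]
    intro N hN
    ext i
    rw [coeff_zero]
    exact key i N (by omega)
  · rw [natDegree_le_iff_coeff_eq_zero]
    intro N hN
    exact key N j (by omega)
  · rw [toB_coeff]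
    exact hH _

theorem fac_inf {k : Type} [Field k] [NumberField k] (hk : 2 ≤ Module.finrank ℚ k) {n H : ℕ}
    (hH2 : 2 ≤ H) {G : MvPolynomial (Fin 2) ℤ} (hn : G.totalDegree ≤ n)
    (hH : ∀ e, |G.coeff e| ≤ (H : ℤ)) (hinf : INFR k G) {x y : ℤ} (h0 : vl G x y = 0) :
    ∃ F : MvPolynomial (Fin 2) ℤ, F ∣ G ∧ Irreducible (MvPolynomial.map (Int.castRingHom ℚ) F) ∧
      F.totalDegree ≤ n ∧ INFR k F ∧ vl F x y = 0 ∧
      ∀ e, |F.coeff e| ≤ ((H ^ (2 * (n + 1) ^ 2 + 1) : ℕ) : ℤ) := by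
  have hG0 := inf_ne hk hinf
  have hvl : ∀ P : MvPolynomial (Fin 2) ℤ, vl P x y = Lam x y (toB P) := by
    intro P
    rw [toB_Lam]
    unfold vl
    have h1 : Int.castRingHom ℤ = RingHom.id ℤ := Subsingleton.elim _ _
    rw [h1]
    rfl
  have hB0 : toB G ≠ 0 := by
    intro h'
    exact hG0 ((map_eq_zero_iff _ (AlgEquiv.injective _)).1 h')
  obtain ⟨p0, hp0, hdvd, hL⟩ := exists_irr x y (toB G) hB0 (by rw [← hvl, h0])
  obtain ⟨F, hF⟩ : ∃ F, F = toB.symm p0 := ⟨_, rfl⟩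
  have hFB : toB F = p0 := by rw [hF]; exact AlgEquiv.apply_symm_apply _ _
  have hFG : F ∣ G := by
    have h1 := map_dvd toB.symm hdvd
    rw [AlgEquiv.symm_apply_apply] at h1
    rw [hF]
    exact h1
  have hFinf := inf_dvd hFG hinf
  have hF0 := inf_ne hk hFinf
  have hF1 : vl F x y = 0 := by rw [hvl, hFB, hL]
  obtain ⟨m, hm, hm1⟩ := exists_y k hk hFinf (x0 := x) (y0 := y) (by exact_mod_cast hF1)
  have hnd : 1 ≤ p0.natDegree := by
    rw [← hFB]
    refine hm1.trans (le_natDegree_of_ne_zero ?_)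
    intro h'
    have h1 := congrArg (fun q => q.coeff (m 0)) h'
    simp only [toB_coeff, coeff_zero] at h1
    rw [MvPolynomial.mem_support_iff] at hm
    apply hm
    rw [← h1]
    congr 1
    ext v
    fin_cases v <;> simp
  obtain ⟨R, hR⟩ := hFG
  have hR0 : R ≠ 0 := by
    rintro rfl
    rw [mul_zero] at hR
    exact hG0 hR
  have hdeg : F.totalDegree ≤ n := by
    have h1 := MvPolynomial.totalDegree_mul_of_isDomain hF0 hR0
    rw [← hR] at h1
    omega
  have hgl := gelf2 hH2 (b2_toB hn hH) hB0 (g := toB F) (h := toB R) (by rw [hR, map_mul])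
  refine ⟨F, ⟨R, hR⟩, ?_, hdeg, hFinf, hF1, fun e => ?_⟩
  · rw [hF]
    exact irr_Q p0 hp0 hnd
  · have h1 := hgl.2.2 (e 1) (e 0)
    rw [toB_coeff] at h1
    have h2 : (Finsupp.single 0 (e 0) + Finsupp.single 1 (e 1) : Fin 2 →₀ ℕ) = e := by
      ext v
      fin_cases v <;> simp
    rw [h2, ← sq] at h1
    exact h1

end Pool.Agent.H37.AL
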