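import Pool.Agent.H98.AL.Main
import Pool.Agent.H37.AL.Asm
import Pool.Agent.H37.AL.Uni3

/-!
# [H37 AL FIN3] THEOREM ALG, with every large value of `N0` and with the explicit exponent

The clause `∀ N1 ≥ N0` says that the unknown number `N0` is only a threshold: the algorithm works
with every larger number. If `ρ = 0` then the exponent is the explicit one, `CB (n + N1 + 3)`.
-/

namespace Pool.Agent.H37.AL

open Pool.Agent.H8.Siegel Pool.Agent.H69.AL Pool.Agent.H98.AL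

private theorem sound3 {q p : Polynomial ℤ} {c s e m : ℕ} {N Q R G : P2}
    (h : CertP q p c s e m N Q R G) : Star q G := by
  by_cases hq : q = 0
  · intro L _ _ _ X Y _
    right
    exact ⟨0, by rw [hq, map_zero]⟩
  · exact sound hq h

/-- the exceptional triples -/
theorem exists_lev3 : ∃ (T : Type) (_ : Primcodable T) (lev : Code → ℕ → T → Bool) (sz' : T → ℕ),
    (Primrec fun p : Code × ℕ × T => lev p.1 p.2.1 p.2.2) ∧ Primrec sz' ∧
    (∀ c N t, lev c N t = true → ExcQ (uni c) N (CA N) (sz' t)) ∧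
    ∀ (c : Code) (N : ℕ) (G : P2) (H : ℕ) (x y : ℤ),
      Irreducible (MvPolynomial.map (Int.castRingHom ℚ) G) → Star (uni c) G →
      G.totalDegree ≤ N → (∀ t, |MvPolynomial.coeff t G| ≤ (H : ℤ)) → 2 ≤ H → vl G x y = 0 →
      H ^ CA N < sz x y → ∃ t, lev c N t = true ∧ sz' t = sz x y := by
  refine ⟨Trip, inferInstance, Pool.Agent.H69.AL.lev CA, szT, primrec_lev CA primrec_CA,
    primrec_szT, ?_, ?_⟩
  · intro c N t ht
    obtain ⟨G, H, x, y, h1, h2, h3, h4, h5, h6, h7⟩ :=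
      levP_sound ((lev_iff CA c N t).1 ht) (fun h => sound3 h)
    refine ⟨G, H, x, y, h1, h2, h3, h4, ?_, ?_, h7⟩
    · rw [vl_eval, h5]
    · have h8 : ((szT t : ℕ) : ℤ) = ((sz x y : ℕ) : ℤ) := by rw [h6, sz_max]
      exact_mod_cast h8
  · intro c N G H x y hirr hs hdeg hH hH2 h0 hbig
    obtain ⟨t, ht, hts⟩ := levP_complete (C := CA) (q := c) (N := N) (G := G) (x := x) (y := y)
      (complete hirr hs) hdeg (by rw [← vl_eval, h0]) hH2 hH (by
        rw [← sz_max]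
        exact_mod_cast hbig)
    refine ⟨t, (lev_iff CA c N t).2 ht, ?_⟩
    have h8 : ((szT t : ℕ) : ℤ) = ((sz x y : ℕ) : ℤ) := by rw [hts, sz_max]
    exact_mod_cast h8

/-- **The algorithm, on codes.** -/
theorem unif3 : ∃ A : Code × (ℕ × ℕ) × ℕ →. ℕ, Partrec A ∧
    ∀ c : Code, Deg3 (uni c) → ∃ ρ ≤ (RF (uni c)).ncard, ∃ N0,
      (ρ = (RF (uni c)).ncard → N0 = 0) ∧ ∀ N1, N0 ≤ N1 → ∀ n,
        ∃ E ∈ A (c, (ρ, N1), n), (ρ = 0 → E = CB (n + N1 + 3)) ∧ Bnd (uni c) n E := by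
  obtain ⟨T, hT, lev, sz', hlev, hsz, h1, h2⟩ := exists_lev3
  obtain ⟨A, hA, hA2⟩ := chain_unif3 lev hlev sz' hsz WB CB primrec_WB primrec_CB
    (fun N => Nat.le_add_left 1 _)
  refine ⟨fun z => bif decide (z.2.1.1 = 0) then Part.some (CB (z.2.2 + z.2.1.2 + 3))
    else A (z.1, z.2.1, (z.2.2, 2)), ?_, fun c hc => ?_⟩
  · have hn : Primrec fun z : Code × (ℕ × ℕ) × ℕ => z.2.2 := Primrec.snd.comp Primrec.snd
    have hN : Primrec fun z : Code × (ℕ × ℕ) × ℕ => z.2.1.2 :=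
      Primrec.snd.comp (Primrec.fst.comp Primrec.snd)
    have hr : Primrec fun z : Code × (ℕ × ℕ) × ℕ => z.2.1.1 :=
      Primrec.fst.comp (Primrec.fst.comp Primrec.snd)
    refine Partrec.cond ((Primrec.eq.decide).comp hr (Primrec.const 0)).to_comp ?_ ?_
    · exact ((primrec_CB.comp (Primrec.nat_add.comp (Primrec.nat_add.comp hn hN)
        (Primrec.const 3))).to_comp).partrec
    · exact hA.comp (Primrec.pair Primrec.fst (Primrec.pair (Primrec.fst.comp Primrec.snd)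
        (Primrec.pair hn (Primrec.const 2)))).to_comp
  obtain ⟨ρ, hρ, N0, hN00, hρ0, hN⟩ := hA2 c (RF (uni c)).ncard (by
    intro N hN l hl hp
    rw [← List.length_map sz']
    refine chain_lenQ hc hN le_rfl (l.map sz') ?_ ?_
    · intro z hz
      rw [List.mem_map] at hz
      obtain ⟨t, ht, rfl⟩ := hz
      exact h1 c N t (hl t ht)
    · rw [List.pairwise_map]
      refine hp.imp fun {s t} hst => ?_
      refine lt_of_le_of_lt ?_ hst
      rcases Nat.eq_zero_or_pos (sz' t) with h0 | h0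
      · rw [h0]
        have hW : WA N ≠ 0 := by
          unfold WA
          positivity
        rw [zero_pow hW]
        exact Nat.zero_le _
      · exact Nat.pow_le_pow_right h0 (Nat.le_succ _))
  -- a zero which is larger than `H ^ CB N` gives an exceptional triple of the level `N`
  have key : ∀ N n H : ℕ, n ≤ N → ∀ F : P2, 2 ≤ H → F.totalDegree ≤ n →
      (∀ t, |MvPolynomial.coeff t F| ≤ (H : ℤ)) → Star (uni c) F → ∀ x y : ℤ, vl F x y = 0 →
      H ^ CB N < sz x y → ∃ t, lev c N t = true ∧ sz' t = sz x y := by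
    intro N n H hnN F hH2 hdeg hH hstar x y h0 hbig
    obtain ⟨G, hGF, hirr, hGdeg, hGs, hG0, hGH⟩ := fac_star hc hH2 (hdeg.trans hnN) hH hstar h0
    have hH2' : 2 ≤ H ^ (2 * (N + 1) ^ 2 + 1) := by
      calc 2 ≤ H := hH2
        _ = H ^ 1 := (pow_one H).symm
        _ ≤ _ := Nat.pow_le_pow_right (by omega) (by omega)
    refine h2 c N G _ x y hirr hGs hGdeg hGH hH2' hG0 ?_
    rw [← pow_mul]
    exact hbig
  refine ⟨ρ, hρ, N0, hN00, fun N1 hN1 n => ?_⟩
  by_cases h0 : ρ = 0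
  · refine ⟨CB (n + N1 + 3), ?_, fun _ => rfl, ?_⟩
    · simp [h0]
    · intro H F hH2 hdeg hH hstar x y hxy
      by_contra hcon
      push Not at hcon
      obtain ⟨t, ht, hts⟩ := key (n + N1 + 3) n H (by omega) F hH2 hdeg hH hstar x y hxy hcon
      have h4 := hρ0 h0 _ (by omega) (by omega) t ht
      omega
  · obtain ⟨B, hB, N, hnN, hN3, hCB, hlB⟩ := hN N1 hN1 n 2
    refine ⟨B, ?_, fun h => absurd h h0, ?_⟩
    · simpa [h0] using hB
    · intro H F hH2 hdeg hH hstar x y hxy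
      by_contra hcon
      push Not at hcon
      have hC : CB N ≤ B := (Nat.lt_two_pow_self (n := CB N)).le.trans hCB
      obtain ⟨t, ht, hts⟩ := key N n H hnN F hH2 hdeg hH hstar x y hxy
        (lt_of_le_of_lt (Nat.pow_le_pow_right (by omega) hC) hcon)
      have h3 := hlB t ht
      have h4 : B < H ^ B := lt_of_lt_of_le Nat.lt_two_pow_self (Nat.pow_le_pow_left hH2 B)
      omega

/-- **THEOREM ALG.** -/
theorem main3 : ∃ A : List ℤ × (ℕ × ℕ) × ℕ →. ℕ, Partrec A ∧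
    ∀ c : List ℤ, Deg3 (polyOf c) → ∃ ρ ≤ (RF (polyOf c)).ncard, ∃ N0,
      (ρ = (RF (polyOf c)).ncard → N0 = 0) ∧ ∀ N1, N0 ≤ N1 → ∀ n,
        ∃ E ∈ A (c, (ρ, N1), n), (ρ = 0 → E = CB (n + N1 + 3)) ∧ Bnd (polyOf c) n E := by
  obtain ⟨A, hA, h⟩ := unif3
  refine ⟨fun z => A (toC z.1, z.2.1, z.2.2), hA.comp ?_, fun c hc => ?_⟩
  · exact (Primrec.pair (primrec_toC.comp Primrec.fst) (Primrec.pair
      (Primrec.fst.comp Primrec.snd) (Primrec.snd.comp Primrec.snd))).to_comp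
  · have h1 := h (toC c)
    rw [uni_toC] at h1
    exact h1 hc

/-- the explicit exponent -/
theorem CB_eq (N : ℕ) : CB N =
    (2 * (N + 1) ^ 2 + 1) * ((2 * (N + 1) ^ 2 + 1) * 2 ^ (2 * N ^ 2).factorial) := rfl

end Pool.Agent.H37.AL
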