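import Pool.Agent.H37.AL.Asm
import Pool.Agent.H69.AL.Lev
import Pool.Agent.H98.AL.Sound
import Pool.Agent.H98.AL.Complete

/-! # [H37 AL MAIN] THEOREM ALG -/

namespace Pool.Agent.H37.AL

open Pool.Agent.H8.Siegel Pool.Agent.H69.AL Pool.Agent.H98.AL

private theorem vl_eval (G : MvPolynomial (Fin 2) ℤ) (x y : ℤ) :
    H98.AL.vl G x y = MvPolynomial.eval ![x, y] G := by
  unfold H98.AL.vl
  rw [← MvPolynomial.eval₂_id]
  congr 1

private theorem sound' {q p : Polynomial ℤ} {c s e m : ℕ} {N Q R G : P2}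
    (h : CertP q p c s e m N Q R G) : Star q G := by
  by_cases hq : q = 0
  · intro L _ _ _ X Y _
    right
    exact ⟨0, by rw [hq, map_zero]⟩
  · exact sound hq h

/-- **THEOREM ALG.** -/
theorem main : ∃ A : Code × (ℕ × ℕ) × ℕ →. ℕ, Partrec A ∧ ∀ q : Code, Deg3 (uni q) →
    ∃ ρ ≤ (RF (uni q)).ncard, ∃ N0, (ρ = (RF (uni q)).ncard → N0 = 0) ∧
      ∀ n, ∃ E ∈ A (q, (ρ, N0), n), ∀ (F : MvPolynomial (Fin 2) ℤ) (H : ℕ),
        F.totalDegree ≤ n → Star (uni q) F → 2 ≤ H → (∀ e, |F.coeff e| ≤ (H : ℤ)) →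
          ∀ x y : ℤ, H98.AL.vl F x y = 0 → sz x y ≤ H ^ E := by
  refine asm (lev CA) (primrec_lev CA primrec_CA) szT primrec_szT ?_ ?_
  · intro q N t h
    obtain ⟨G, H, x, y, h1, h2, h3, h4, h5, h6, h7⟩ := levP_sound ((lev_iff CA q N t).1 h)
      (fun hc => sound' hc)
    refine ⟨G, H, x, y, h1, h2, h3, h4, ?_, ?_, h7⟩
    · rw [vl_eval, h5]
    · rw [← sz_cast] at h6
      exact_mod_cast h6
  · intro q N G H x y _ hirr hd hs hH2 hH h0 hbig
    obtain ⟨p, c, s, e, m, N', Q, R, hc⟩ := complete hirr hs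
    obtain ⟨t, h1, h2⟩ := levP_complete (C := CA) (q := q) (N := N) (G := G) (x := x) (y := y)
      ⟨p, c, s, e, m, N', Q, R, hc⟩ hd (by rw [← vl_eval, h0]) hH2 hH (by
        rw [← sz_cast]
        exact_mod_cast hbig)
    refine ⟨t, (lev_iff CA q N t).2 h1, ?_⟩
    rw [← sz_cast] at h2
    exact_mod_cast h2

end Pool.Agent.H37.AL
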