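import Mathlib

/-! # [H37 AL RFQ] The real fields generated by a zero of `q`, up to isomorphism -/

namespace Pool.Agent.H37.AL

open Polynomial IntermediateField

/-- the real fields generated by a zero of `q` -/
def RF (q : ℤ[X]) : Set (IntermediateField ℚ ℝ) := {K | ∃ α : ℝ, aeval α q = 0 ∧ K = ℚ⟮α⟯}

theorem RF_finite {q : ℤ[X]} (hq : q ≠ 0) : (RF q).Finite := by
  have h1 : (q.rootSet ℝ).Finite := Polynomial.rootSet_finite q ℝ
  refine (h1.image fun α : ℝ => ℚ⟮α⟯).subset ?_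
  rintro K ⟨α, hα, rfl⟩
  exact ⟨α, (Polynomial.mem_rootSet_of_ne hq).2 hα, rfl⟩

/-- a homomorphism from `ℚ(α)` to `ℝ` has image `ℚ(α')` -/
theorem range_adjoin {α : ℝ} (f : ℚ⟮α⟯ →ₐ[ℚ] ℝ) :
    f.fieldRange = ℚ⟮f (AdjoinSimple.gen ℚ α)⟯ := by
  apply le_antisymm
  · rintro _ ⟨⟨x, hx⟩, rfl⟩
    refine IntermediateField.adjoin_induction ℚ (p := fun x hx => f ⟨x, hx⟩ ∈
      ℚ⟮f (AdjoinSimple.gen ℚ α)⟯) ?_ ?_ ?_ ?_ ?_ hx
    · intro y hy
      rw [Set.mem_singleton_iff] at hy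
      subst hy
      exact mem_adjoin_simple_self ℚ _
    · intro r
      have h1 : f ⟨algebraMap ℚ ℝ r, IntermediateField.algebraMap_mem _ _⟩ = algebraMap ℚ ℝ r := f.commutes r
      rw [h1]
      exact IntermediateField.algebraMap_mem _ r
    · intro y z hy hz h1 h2
      have h3 : f ⟨y + z, add_mem hy hz⟩ = f ⟨y, hy⟩ + f ⟨z, hz⟩ := map_add f ⟨y, hy⟩ ⟨z, hz⟩
      rw [h3]
      exact add_mem h1 h2
    · intro y hy h1
      have h3 : f ⟨y⁻¹, inv_mem hy⟩ = (f ⟨y, hy⟩)⁻¹ := map_inv₀ f ⟨y, hy⟩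
      rw [h3]
      exact inv_mem h1
    · intro y z hy hz h1 h2
      have h3 : f ⟨y * z, mul_mem hy hz⟩ = f ⟨y, hy⟩ * f ⟨z, hz⟩ := map_mul f ⟨y, hy⟩ ⟨z, hz⟩
      rw [h3]
      exact mul_mem h1 h2
  · rw [adjoin_simple_le_iff]
    exact ⟨_, rfl⟩

/-- isomorphic fields -/
def RS (q : ℤ[X]) : Setoid (RF q) where
  r K K' := Nonempty (K.1 ≃+* K'.1)
  iseqv := ⟨fun _ => ⟨RingEquiv.refl _⟩, fun ⟨e⟩ => ⟨e.symm⟩, fun ⟨e⟩ ⟨e'⟩ => ⟨e.trans e'⟩⟩

/-- the isomorphism classes -/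
abbrev RI (q : ℤ[X]) : Type := Quotient (RS q)

/-- a representative -/
abbrev RK (q : ℤ[X]) (c : RI q) : Type := (Quotient.out c).1

theorem RI_finite {q : ℤ[X]} (hq : q ≠ 0) : Finite (RI q) := by
  have h1 : Finite (RF q) := RF_finite hq
  exact Quotient.finite _

theorem alg_root {q : ℤ[X]} (hq : q ≠ 0) {α : ℝ} (hα : aeval α q = 0) : IsAlgebraic ℚ α := by
  refine ⟨q.map (algebraMap ℤ ℚ), ?_, ?_⟩
  · rwa [Ne, Polynomial.map_eq_zero_iff (algebraMap ℤ ℚ).injective_int]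
  · rw [aeval_map_algebraMap]
    exact hα

theorem RK_fin {q : ℤ[X]} (hq : q ≠ 0) (c : RI q) : NumberField (RK q c) := by
  obtain ⟨α, hα, hK⟩ := (Quotient.out c).2
  have hint : IsIntegral ℚ α := by
    exact (alg_root hq hα).isIntegral
  have h2 : FiniteDimensional ℚ ℚ⟮α⟯ := adjoin.finiteDimensional hint
  have h3 : NumberField ℚ⟮α⟯ := { to_charZero := inferInstance, to_finiteDimensional := h2 }
  change NumberField (Quotient.out c).1
  rw [hK]
  exact h3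

theorem RK_rank {q : ℤ[X]} (hq : q ≠ 0)
    (h3 : ∀ p : ℚ[X], Irreducible p → p ∣ q.map (Int.castRingHom ℚ) → 3 ≤ p.natDegree)
    (c : RI q) : 3 ≤ Module.finrank ℚ (RK q c) := by
  obtain ⟨α, hα, hK⟩ := (Quotient.out c).2
  have hint : IsIntegral ℚ α := by
    exact (alg_root hq hα).isIntegral
  have h4 : 3 ≤ Module.finrank ℚ ℚ⟮α⟯ := by
    rw [adjoin.finrank hint]
    refine h3 _ (minpoly.irreducible hint) (minpoly.dvd ℚ α ?_)
    have h5 : algebraMap ℤ ℚ = Int.castRingHom ℚ := rfl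
    rw [← h5, aeval_map_algebraMap]
    exact hα
  change 3 ≤ Module.finrank ℚ (Quotient.out c).1
  rw [hK]
  exact h4

theorem no_root {q : ℤ[X]}
    (h3 : ∀ p : ℚ[X], Irreducible p → p ∣ q.map (Int.castRingHom ℚ) → 3 ≤ p.natDegree) :
    ¬ ∃ z : ℚ, aeval z q = 0 := by
  rintro ⟨z, hz⟩
  have h1 : (X - C z) ∣ q.map (Int.castRingHom ℚ) := by
    rw [dvd_iff_isRoot, IsRoot.def, eval_map, ← algebraMap_int_eq, ← aeval_def]
    exact hz
  have h2 := h3 _ (irreducible_X_sub_C z) h1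
  rw [natDegree_X_sub_C] at h2
  omega

/-- a real number field with a zero of `q` contains a representative -/
theorem root_emb (q : ℤ[X]) {L : Type} [Field L] [NumberField L] (hL : Nonempty (L →+* ℝ))
    (h : ∃ z : L, aeval z q = 0) : ∃ c : RI q, Nonempty (RK q c →+* L) := by
  obtain ⟨φ⟩ := hL
  obtain ⟨z, hz⟩ := h
  obtain ⟨ψ, hψ⟩ : ∃ ψ : L →ₐ[ℚ] ℝ, ψ = φ.toRatAlgHom := ⟨_, rfl⟩
  have hα : aeval (ψ z) q = 0 := by
    have h1 : aeval (ψ z) q = ψ (aeval z q) := by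
      rw [aeval_def, aeval_def, ← AlgHom.coe_toRingHom, hom_eval₂]
      congr 1
      exact Subsingleton.elim _ _
    rw [h1, hz, map_zero]
  have hle : ℚ⟮ψ z⟯ ≤ ψ.fieldRange := by
    rw [adjoin_simple_le_iff]
    exact ⟨z, rfl⟩
  obtain ⟨K, hK⟩ : ∃ K : RF q, K = ⟨ℚ⟮ψ z⟯, ψ z, hα, rfl⟩ := ⟨_, rfl⟩
  obtain ⟨e⟩ : Nonempty ((Quotient.out (Quotient.mk (RS q) K)).1 ≃+* K.1) :=
    Quotient.exact (Quotient.out_eq (Quotient.mk (RS q) K))
  refine ⟨Quotient.mk (RS q) K, ⟨?_⟩⟩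
  have hKv : K.1 ≤ ψ.fieldRange := by rw [hK]; exact hle
  have e1 : K.1 →+* ψ.fieldRange := (inclusion hKv).toRingHom
  have e2 : ψ.fieldRange →+* L := (AlgEquiv.ofInjectiveField ψ).symm.toRingEquiv.toRingHom
  exact e2.comp (e1.comp e.toRingHom)

/-- the number of the real fields isomorphic to the representatives -/
theorem RK_card {q : ℤ[X]} (hq : q ≠ 0) [Fintype (RI q)] :
    ∑ c : RI q, Set.ncard {K : Subfield ℝ | Nonempty (RK q c ≃+* K)} ≤ (RF q).ncard := by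
  classical
  have hfin : Finite (RF q) := RF_finite hq
  have key : ∀ (c : RI q) (K : Subfield ℝ) (_ : Nonempty (RK q c ≃+* K)),
      ∃ K' : RF q, K'.1.toSubfield = K ∧ Quotient.mk (RS q) K' = c := by
    rintro c K ⟨e⟩
    obtain ⟨α, hα, hK⟩ := (Quotient.out c).2
    obtain ⟨e0⟩ : Nonempty (ℚ⟮α⟯ ≃+* (Quotient.out c).1) := by
      rw [hK]
      exact ⟨RingEquiv.refl _⟩
    obtain ⟨f, hf⟩ : ∃ f : ℚ⟮α⟯ →ₐ[ℚ] ℝ,
        f = (K.subtype.comp (e0.trans e).toRingHom).toRatAlgHom := ⟨_, rfl⟩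
    have h1 := range_adjoin f
    have h2 : aeval (f (AdjoinSimple.gen ℚ α)) q = 0 := by
      have h3 : aeval (AdjoinSimple.gen ℚ α) q = 0 := by
        apply (algebraMap ℚ⟮α⟯ ℝ).injective
        rw [map_zero, ← aeval_algebraMap_apply, AdjoinSimple.algebraMap_gen]
        exact hα
      have h4 : aeval (f (AdjoinSimple.gen ℚ α)) q = f (aeval (AdjoinSimple.gen ℚ α) q) := by
        rw [aeval_def, aeval_def, ← AlgHom.coe_toRingHom, hom_eval₂]
        congr 1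
        exact Subsingleton.elim _ _
      rw [h4, h3, map_zero]
    have h5 : f.fieldRange.toSubfield = K := by
      ext x
      constructor
      · rintro ⟨y, rfl⟩
        rw [hf]
        exact (e (e0 y)).2
      · intro hx
        refine ⟨e0.symm (e.symm ⟨x, hx⟩), ?_⟩
        rw [hf]
        change ((e (e0 (e0.symm (e.symm ⟨x, hx⟩))) : K) : ℝ) = x
        rw [RingEquiv.apply_symm_apply, RingEquiv.apply_symm_apply]
    refine ⟨⟨f.fieldRange, _, h2, h1⟩, h5, ?_⟩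
    have h6 : Quotient.mk (RS q) ⟨f.fieldRange, _, h2, h1⟩ =
        Quotient.mk (RS q) (Quotient.out c) := by
      apply Quotient.sound
      exact ⟨((AlgEquiv.ofInjectiveField f).symm.toRingEquiv).trans e0⟩
    rw [h6, Quotient.out_eq]
  have hfinA : ∀ c : RI q, Finite {K : Subfield ℝ | Nonempty (RK q c ≃+* K)} := by
    intro c
    have h1 : {K : Subfield ℝ | Nonempty (RK q c ≃+* K)} ⊆
        Set.range fun K' : RF q => K'.1.toSubfield := by
      intro K hK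
      obtain ⟨K', h2, _⟩ := key c K hK
      exact ⟨K', h2⟩
    exact (Set.finite_range _).subset h1
  have h1 : ∑ c : RI q, Set.ncard {K : Subfield ℝ | Nonempty (RK q c ≃+* K)} =
      Nat.card (Σ c : RI q, {K : Subfield ℝ | Nonempty (RK q c ≃+* K)}) := by
    rw [Nat.card_sigma]
    rfl
  rw [h1, ← Nat.card_coe_set_eq]
  choose g hg1 hg2 using key
  refine Nat.card_le_card_of_injective (fun s => g s.1 s.2.1 s.2.2) ?_
  rintro ⟨c, K, hK⟩ ⟨c', K', hK'⟩ h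
  simp only at h
  have e1 := hg1 c K hK
  have e2 := hg1 c' K' hK'
  have e3 := hg2 c K hK
  have e4 := hg2 c' K' hK'
  rw [h] at e1 e3
  have e5 : c = c' := e3.symm.trans e4
  have e6 : K = K' := e1.symm.trans e2
  subst e5 e6
  rfl

end Pool.Agent.H37.AL
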