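import Pool.Agent.H37.AL.Fin3

/-!
# MP_821da1_nt: computable bounds for all curves with given fields at infinity

`AtInf q F`: every point at infinity of the plane curve `F = 0` with real residue field `L` has a zero of `q` in `L`. If
`q` is irreducible over `ℚ`: `L` contains a copy of `ℚ[T]/(q)`; in general: of one of the fields `ℚ[T]/(p)`, `p` an
irreducible factor of `q`.
-/

namespace Pool.Agent.H37.AL.ResFile

open MvPolynomial

/-- the polynomial with the list of coefficients `c`, constant coefficient first -/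
noncomputable def poly (c : List ℤ) : Polynomial ℤ :=
  ∑ i ∈ Finset.range c.length, Polynomial.C (c.getD i 0) * Polynomial.X ^ i

/-- `q` is not zero and has no irreducible factor of degree `1` or `2` over `ℚ` -/
def Deg3 (q : Polynomial ℤ) : Prop :=
  q ≠ 0 ∧ ∀ p : Polynomial ℚ, Irreducible p → p ∣ q.map (Int.castRingHom ℚ) → 3 ≤ p.natDegree

/-- every point at infinity of `F = 0` over a number field `L` with a real embedding has a zero of
`q` in `L` -/
def AtInf (q : Polynomial ℤ) (F : MvPolynomial (Fin 2) ℤ) : Prop :=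
  ∀ (L : Type) [Field L] [NumberField L], Nonempty (L →+* ℝ) → ∀ X Y : LaurentSeries L,
    eval₂ (Int.castRingHom (LaurentSeries L)) ![X, Y] F = 0 →
      (X ∈ (HahnSeries.ofPowerSeries ℤ L).range ∧ Y ∈ (HahnSeries.ofPowerSeries ℤ L).range) ∨
        ∃ z : L, Polynomial.aeval z q = 0

/-- `max(|x|, |y|) ≤ H^E` for all integer zeros `(x, y)` of all `F` of degree at most `n` with
coefficients in `[-H, H]` and with `AtInf q F` -/
def Bound (q : Polynomial ℤ) (n E : ℕ) : Prop :=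
  ∀ (H : ℕ) (F : MvPolynomial (Fin 2) ℤ), 2 ≤ H → F.totalDegree ≤ n →
    (∀ m, |coeff m F| ≤ (H : ℤ)) → AtInf q F →
      ∀ x y : ℤ, eval ![x, y] F = 0 → max |x| |y| ≤ (H : ℤ) ^ E

/-- the number of fields `ℚ(a)`, `a` a real zero of `q` -/
noncomputable def realFields (q : Polynomial ℤ) : ℕ :=
  Set.ncard {K : IntermediateField ℚ ℝ | ∃ a : ℝ, Polynomial.aeval a q = 0 ∧
    K = IntermediateField.adjoin ℚ {a}}

/-- the explicit exponent for the case `ρ = 0` -/
def expo (N : ℕ) : ℕ := (2 * (N + 1) ^ 2 + 1) ^ 2 * 2 ^ (2 * N ^ 2).factorial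

theorem result :
    (∃ A : List ℤ × (ℕ × ℕ) × ℕ →. ℕ, Partrec A ∧ ∀ c : List ℤ, Deg3 (poly c) →
      ∃ ρ N₀ : ℕ, ρ ≤ realFields (poly c) ∧ (ρ = realFields (poly c) → N₀ = 0) ∧
        ∀ N : ℕ, N₀ ≤ N → ∀ n : ℕ, ∃ E ∈ A (c, (ρ, N), n),
          (ρ = 0 → E = expo (n + N + 3)) ∧ Bound (poly c) n E) ∧
    ∀ q : Polynomial ℤ, Deg3 q → ∃ E : ℕ → ℕ, Computable E ∧ ∀ n : ℕ, Bound q n (E n) := by
  have hb : ∀ q n E, Pool.Agent.H98.AL.Bnd q n E → Bound q n E := by
    intro q n E h H F hH2 hdeg hH hF x y h0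
    have h1 := h H F hH2 hdeg hH hF x y (by rw [Pool.Agent.H98.AL.vl_eval, h0])
    rw [← Pool.Agent.H98.AL.sz_max]
    exact_mod_cast h1
  have he : ∀ N, Pool.Agent.H37.AL.CB N = expo N := fun N => by
    rw [Pool.Agent.H37.AL.CB_eq, expo, ← mul_assoc]
    congr 1
    exact (sq _).symm
  constructor
  · obtain ⟨A, hA, h⟩ := Pool.Agent.H37.AL.main3
    refine ⟨A, hA, fun c hc => ?_⟩
    obtain ⟨ρ, hρ, N0, hN0, hn⟩ := h c hc
    refine ⟨ρ, N0, hρ, hN0, fun N hN n => ?_⟩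
    obtain ⟨E, hE, hE0, hE2⟩ := hn N hN n
    exact ⟨E, hE, fun h0 => (hE0 h0).trans (he _), hb _ _ _ hE2⟩
  · intro q hq
    obtain ⟨E, hE, h⟩ := Pool.Agent.H98.AL.main_one q hq
    exact ⟨E, hE, fun n => hb _ _ _ (h n)⟩

end Pool.Agent.H37.AL.ResFile
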