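import Pool.Agent.H34.AC.KapR
import Pool.Agent.H37.AL.TDefs

/-! # [H37 AL TKAP] The branches whose residue field contains `k` -/

namespace Pool.Agent.H37.AT

open Finset Polynomial Pool.Agent.H72.ES Pool.Agent.H87.SA2 Pool.Agent.H97.XC Pool.Agent.H34.AC

/-- the residue field of a branch has a point of `f` over it -/
theorem Kf_point {f : ℤ[X][X]} {d e q : ℕ} (he : 1 ≤ e) (hq : 1 ≤ q) {ξ : Fin d → PowerSeries AA}
    (hs : f.map (tKq AA e q) = ∏ i, (X - C (ξ i))) (hinj : Function.Injective ξ) (i : Fin d) :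
    ∃ (r : Kf e (ξ i)) (e' : ℕ) (x : PowerSeries (Kf e (ξ i))), r ≠ 0 ∧ 1 ≤ e' ∧
      (f.map (tQ (Kf e (ξ i)) r e')).eval x = 0 := by
  by_contra hcon
  push Not at hcon
  obtain ⟨κ, -⟩ := kap_repK (ZMod 2) (f := f)
    (P := fun K _ _ => ∀ (r : K) (e' : ℕ) (x : PowerSeries K), r ≠ 0 → 1 ≤ e' →
      (f.map (tQ K r e')).eval x ≠ 0)
    (fun K _ _ hP r e' x h1 h2 h3 => absurd h3 (hP r e' x h1 h2)) he hq hs hinj i hcon
  have h1 : (2 : AA) = 0 := by
    have h2 : κ 2 = 0 := by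
      have h3 : (2 : ZMod 2) = 0 := by decide
      rw [h3, map_zero]
    rwa [map_ofNat] at h2
  exact two_ne_zero h1

/-- a condition which holds at all real points of `f` holds for the real residue fields -/
theorem Kf_real {P : ∀ (K : Type) [Field K], Prop} {f : ℤ[X][X]}
    (hinf : ∀ (K : Type) [Field K] [NumberField K], Nonempty (K →+* ℝ) → ∀ (r : K) (e : ℕ)
      (x : PowerSeries K), r ≠ 0 → 1 ≤ e → (f.map (tQ K r e)).eval x = 0 → P K)
    {d e q : ℕ} (he : 1 ≤ e) (hq : 1 ≤ q) {ξ : Fin d → PowerSeries AA}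
    (hs : f.map (tKq AA e q) = ∏ i, (X - C (ξ i))) (hinj : Function.Injective ξ) (i : Fin d)
    (hr : Nonempty (Kf e (ξ i) →+* ℝ)) : P (Kf e (ξ i)) := by
  have hfd := Kf_fin hs hinj i
  have hnf : NumberField (Kf e (ξ i)) :=
    { to_charZero := inferInstance, to_finiteDimensional := hfd }
  obtain ⟨r, e', x, h1, h2, h3⟩ := Kf_point he hq hs hinj i
  exact hinf (Kf e (ξ i)) hr r e' x h1 h2 h3

theorem exists_kapT (k : Type) [Field k] [NumberField k] {f : ℤ[X][X]} {d : ℕ}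
    (pd : PData f d) {ξ : Fin d → PowerSeries AA}
    (hξ : ∀ i, (ξ i).map (algebraMap AA ℂ) = pd.x i) :
    ∃ kp : KapT k pd, ∀ i, Nonempty (k →+* Kf pd.e (ξ i)) → i ∈ kp.S := by
  classical
  obtain ⟨e, hee⟩ : ∃ e, e = pd.e := ⟨_, rfl⟩
  have he : 1 ≤ e := hee ▸ pd.e_pos
  have hζ0 : ∀ ζ : AA, ζ ^ e = 1 → ζ ≠ 0 := by
    intro ζ h h0
    rw [h0, zero_pow (by omega)] at h
    exact zero_ne_one h
  -- an arbitrary embedding
  obtain ⟨κ0⟩ : Nonempty (k →+* AA) := by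
    obtain ⟨g⟩ : Nonempty (k →+* ℂ) := inferInstance
    have h1 : ∀ a : k, g a ∈ AA := by
      intro a
      rw [mem_algebraicClosure_iff]
      have h2 : IsIntegral ℚ a := Algebra.IsIntegral.isIntegral a
      exact (h2.map (g.toRatAlgHom)).isAlgebraic
    exact ⟨g.codRestrict AA.toSubfield.toSubring h1⟩
  -- the branches with `k`
  obtain ⟨RB, hRB⟩ : ∃ RB : Fin d → Prop, ∀ i, RB i ↔ Nonempty (k →+* Kf e (ξ i)) :=
    ⟨fun i => Nonempty (k →+* Kf e (ξ i)), fun i => Iff.rfl⟩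
  have hrep : ∀ i, ∃ κ : k →+* AA, RB i → ∀ (σ : AA ≃ₐ[ℚ] AA) (ζ : AA), ζ ^ e = 1 →
      act σ ζ (ξ i) = ξ i → ∀ z, σ (κ z) = κ z := by
    intro i
    by_cases hi : RB i
    · obtain ⟨g⟩ := (hRB i).1 hi
      exact ⟨(algebraMap (Kf e (ξ i)) AA).comp g, fun _ σ ζ h1 h2 z => (g z).2 σ ζ h1 h2⟩
    · exact ⟨κ0, fun h => absurd h hi⟩
  choose κ hκ using hrep
  -- the equivalence relation
  let Rl : Setoid (Fin d) :=
    { r := fun i j => ∃ (σ : AA ≃ₐ[ℚ] AA) (ζ : AA), ζ ^ e = 1 ∧ act σ ζ (ξ i) = ξ j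
      iseqv :=
        { refl := fun i => ⟨AlgEquiv.refl, 1, one_pow e, by
            refine PowerSeries.ext fun m => ?_
            rw [coeff_act, one_pow, one_mul]
            rfl⟩
          symm := by
            rintro i j ⟨σ, ζ, h1, h2⟩
            refine ⟨σ.symm, σ.symm ζ⁻¹, ?_, act_symm (hζ0 ζ h1) h2⟩
            rw [← map_pow, inv_pow, h1, inv_one, map_one]
          trans := by
            rintro i j l ⟨σ, ζ, h1, h2⟩ ⟨σ', ζ', h1', h2'⟩
            refine ⟨σ.trans σ', ζ' * σ' ζ, ?_, ?_⟩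
            · rw [mul_pow, ← map_pow, h1, h1', map_one, mul_one]
            · rw [← act_act, h2, h2'] } }
  let repq : Quotient Rl → Fin d := fun q =>
    if h : ∃ i0, Quotient.mk Rl i0 = q ∧ RB i0 then h.choose else q.out
  have hrepq : ∀ q, Quotient.mk Rl (repq q) = q := by
    intro q
    by_cases h : ∃ i0, Quotient.mk Rl i0 = q ∧ RB i0
    · change Quotient.mk Rl (if h : _ then _ else _) = q
      rw [dif_pos h]
      exact h.choose_spec.1
    · change Quotient.mk Rl (if h : _ then _ else _) = q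
      rw [dif_neg h]
      exact Quotient.out_eq q
  have hrepq2 : ∀ i0, RB i0 → RB (repq (Quotient.mk Rl i0)) := by
    intro i0 h0
    have h : ∃ i1, Quotient.mk Rl i1 = Quotient.mk Rl i0 ∧ RB i1 := ⟨i0, rfl, h0⟩
    change RB (if h : _ then _ else _)
    rw [dif_pos h]
    exact h.choose_spec.2
  obtain ⟨rep, hrepd⟩ : ∃ rep : Fin d → Fin d, ∀ i, rep i = repq (Quotient.mk Rl i) :=
    ⟨fun i => repq (Quotient.mk Rl i), fun _ => rfl⟩
  have hr1 : ∀ i, ∃ (σ : AA ≃ₐ[ℚ] AA) (ζ : AA), ζ ^ e = 1 ∧ act σ ζ (ξ (rep i)) = ξ i := by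
    intro i
    have h1 : Quotient.mk Rl (rep i) = Quotient.mk Rl i := by rw [hrepd]; exact hrepq _
    exact Quotient.exact h1
  have hr2 : ∀ i j, (∃ (σ : AA ≃ₐ[ℚ] AA) (ζ : AA), ζ ^ e = 1 ∧ act σ ζ (ξ i) = ξ j) →
      rep i = rep j := by
    intro i j h
    have h1 : Quotient.mk Rl i = Quotient.mk Rl j := Quotient.sound h
    rw [hrepd, hrepd, h1]
  choose s z hz hsz using hr1
  -- equivariance
  have hmain : ∀ (σ : AA ≃ₐ[ℚ] AA) (ζ : AA) (i j : Fin d), ζ ^ e = 1 → act σ ζ (ξ i) = ξ j →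
      RB (rep i) → RB (rep j) ∧ ∀ w : k, σ (s i (κ (rep i) w)) = s j (κ (rep j) w) := by
    intro σ ζ i j h1 h2 hRi
    have h3 := hr2 i j ⟨σ, ζ, h1, h2⟩
    refine ⟨h3 ▸ hRi, fun w => ?_⟩
    have h4 : act (s j).symm ((s j).symm (z j)⁻¹) (act σ ζ (act (s i) (z i) (ξ (rep i)))) =
        ξ (rep i) := by
      rw [hsz i, h2, h3]
      exact act_symm (hζ0 _ (hz j)) (hsz j)
    rw [act_act, act_act] at h4
    have h5 := hκ (rep i) hRi _ _ ?_ h4 w
    · rw [AlgEquiv.trans_apply, AlgEquiv.trans_apply] at h5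
      have h6 := congrArg (s j) h5
      rw [AlgEquiv.apply_symm_apply] at h6
      rw [h6, h3]
    · rw [mul_pow, mul_pow, ← map_pow, ← map_pow, ← map_pow, inv_pow, hz, hz, h1]
      simp
  have hcoe2 : ∀ i m, ((PowerSeries.coeff m (ξ i) : AA) : ℂ) = PowerSeries.coeff m (pd.x i) := by
    intro i m
    rw [← hξ, PowerSeries.coeff_map]
    rfl
  have hlift : ∀ ζ : ℂ, ζ ^ e = 1 → ∃ ζ' : AA, (ζ' : ℂ) = ζ ∧ ζ' ^ e = 1 := by
    intro ζ hζ
    have hζA : ζ ∈ AA := by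
      rw [mem_algebraicClosure_iff]
      have h2 : IsIntegral ℚ (ζ ^ e) := by
        rw [hζ]
        exact isIntegral_one
      exact (IsIntegral.of_pow he h2).isAlgebraic
    refine ⟨⟨ζ, hζA⟩, rfl, ?_⟩
    apply Subtype.ext
    rw [SubmonoidClass.coe_pow, hζ]
    rfl
  refine ⟨⟨Finset.univ.filter fun i => RB (rep i),
    fun i => (algebraMap AA ℂ).comp (((s i : AA ≃ₐ[ℚ] AA) : AA →+* AA).comp (κ (rep i))),
    ?_, ?_⟩, ?_⟩
  · intro σ i hi j h
    rw [Finset.mem_filter] at hi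
    obtain ⟨τ, hτ⟩ := aa_equiv σ
    have h1 : act τ 1 (ξ i) = ξ j := by
      refine PowerSeries.ext fun m => ?_
      rw [coeff_act, one_pow, one_mul]
      apply Subtype.ext
      rw [hτ, h m _ (hcoe2 i m), hcoe2]
    obtain ⟨h2, h3⟩ := hmain τ 1 i j (one_pow e) h1 hi.2
    refine ⟨Finset.mem_filter.2 ⟨Finset.mem_univ j, h2⟩, fun w a ha => ?_⟩
    have h4 : a = s i (κ (rep i) w) := Subtype.ext ha
    rw [h4, ← hτ, h3]
    rfl
  · intro ζ i hi j hζ h
    rw [Finset.mem_filter] at hi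
    rw [← hee] at hζ
    obtain ⟨ζ', hζ', h1⟩ := hlift ζ hζ
    have h2 : act AlgEquiv.refl ζ' (ξ i) = ξ j := by
      refine PowerSeries.ext fun m => ?_
      rw [coeff_act]
      apply Subtype.ext
      have h3 := congrArg (PowerSeries.coeff m) h
      rw [PowerSeries.coeff_rescale] at h3
      rw [hcoe2, ← h3, ← hζ', ← hcoe2]
      rfl
    obtain ⟨h3, h4⟩ := hmain AlgEquiv.refl ζ' i j h1 h2 hi.2
    refine ⟨Finset.mem_filter.2 ⟨Finset.mem_univ j, h3⟩, RingHom.ext fun w => ?_⟩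
    have h5 := h4 w
    change (algebraMap AA ℂ) (s j (κ (rep j) w)) = (algebraMap AA ℂ) (s i (κ (rep i) w))
    rw [← h5]
    rfl
  · intro i hi
    change i ∈ Finset.univ.filter fun i => RB (rep i)
    rw [← hee] at hi
    rw [Finset.mem_filter]
    refine ⟨Finset.mem_univ i, ?_⟩
    rw [hrepd]
    exact hrepq2 i ((hRB i).2 hi)

/-- a real branch has a real residue field -/
theorem real_branch {f : ℤ[X][X]} {d : ℕ} (pd : PData f d) {ξ : Fin d → PowerSeries AA}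
    (hξ : ∀ i, (ξ i).map (algebraMap AA ℂ) = pd.x i) (i : Fin d) (ζ : ℂ) (hζ : ζ ^ pd.e = 1)
    (h : PowerSeries.rescale ζ ((pd.x i).map (starRingEnd ℂ)) = pd.x i) :
    Nonempty (Kf pd.e (ξ i) →+* ℝ) := by
  obtain ⟨c, hc⟩ := exists_conjA
  have he : 1 ≤ pd.e := pd.e_pos
  have hζA : ζ ∈ AA := by
    rw [mem_algebraicClosure_iff]
    have h2 : IsIntegral ℚ (ζ ^ pd.e) := by
      rw [hζ]
      exact isIntegral_one
    exact (IsIntegral.of_pow he h2).isAlgebraic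
  have hcoe2 : ∀ i m, ((PowerSeries.coeff m (ξ i) : AA) : ℂ) = PowerSeries.coeff m (pd.x i) := by
    intro i m
    rw [← hξ, PowerSeries.coeff_map]
    rfl
  have h1 : (⟨ζ, hζA⟩ : AA) ^ pd.e = 1 := by
    apply Subtype.ext
    rw [SubmonoidClass.coe_pow, hζ]
    rfl
  refine real_Kf hc h1 (x := ξ i) ?_
  refine PowerSeries.ext fun m => ?_
  rw [coeff_act]
  apply Subtype.ext
  have h3 := congrArg (PowerSeries.coeff m) h
  rw [PowerSeries.coeff_rescale, PowerSeries.coeff_map] at h3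
  rw [hcoe2, ← h3, ← hcoe2, ← hc]
  rfl

end Pool.Agent.H37.AT
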