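import Pool.Agent.H52.AC.TWO
import Pool.Agent.H37.AL.TSge

/-!
# MP_821da1_nt, AllCurves: the two-point theorem, real version (port of `H52/AC/TWO.lean`)
-/

namespace Pool.Agent.H37.AT

open Finset Polynomial Pool.Agent.H72.ES Pool.Agent.H87.SA2 Pool.Agent.H8.KF Pool.Agent.H8.AW
  Pool.Agent.H52.AC

theorem two_pointS {k : Type} [Field k] [NumberField k] (hk : 3 ≤ Module.finrank ℚ k)
    {n d1 b1 d2 b2 : ℕ} {F1 F2 : ℕ → ℕ → ℤ} (C1 : CrvT k n d1 b1 F1) (C2 : CrvT k n d2 b2 F2)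
    {i : Fin d1} {j : Fin d2}
    (hi : i ∈ C1.kp.S) (hj : j ∈ C2.kp.S) (hkap : C1.kp.kap i = C2.kp.kap j) {T1 T2 : ℂ} {x1 y1 x2 y2 : ℤ}
    (h1 : ev d1 F1 x1 y1 = 0) (h2 : ev d2 F2 x2 y2 = 0)
    (hT1 : ((C1.pd.q : ℂ) * T1) ^ C1.pd.e * (x1 : ℂ) = 1)
    (hT2 : ((C2.pd.q : ℂ) * T2) ^ C2.pd.e * (x2 : ℂ) = 1)
    (hy1 : evz T1 (C1.pd.x i) = (y1 : ℂ) / (x1 : ℂ))
    (hy2 : evz T2 (C2.pd.x j) = (y2 : ℂ) / (x2 : ℂ))
    (hb1 : (b1 : ℝ) ^ cA n ≤ |(x1 : ℝ)|) (hb2 : (b2 : ℝ) ^ cA n ≤ |(x2 : ℝ)|)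
    (hlt : |(x1 : ℝ)| ^ wA n ≤ |(x2 : ℝ)|) : False := by
  have hd1 := C1.d4
  have hd2 := C2.d4
  have hd1n := C1.dn
  have hd2n := C2.dn
  have hn : 4 ≤ n := hd1.trans hd1n
  obtain ⟨E, hE⟩ : ∃ E, E = n.factorial := ⟨_, rfl⟩
  have hnE : n ≤ E := by rw [hE]; exact Nat.self_le_factorial n
  have he1 : C1.pd.e ≤ E := by rw [hE]; exact C1.e_le.trans (Nat.factorial_le hd1n)
  have he2 : C2.pd.e ≤ E := by rw [hE]; exact C2.e_le.trans (Nat.factorial_le hd2n)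
  obtain ⟨B1, hB1d⟩ : ∃ B1, B1 = Bq n b1 := ⟨_, rfl⟩
  obtain ⟨B2, hB2d⟩ : ∃ B2, B2 = Bq n b2 := ⟨_, rfl⟩
  have hB11 : 1 ≤ B1 := by rw [hB1d]; exact Bq_one C1.b2
  have hB21 : 1 ≤ B2 := by rw [hB2d]; exact Bq_one C2.b2
  have hB1f : 3000 * (n : ℝ) ^ 4 * (E : ℝ) ^ 2 ≤ B1 := by
    rw [hB1d, hE]; exact Bq_fac hn C1.b2
  have hR1 := C1.pd.R_ge
  have hR2 := C2.pd.R_ge
  have hB1q : 2 * (C1.pd.q : ℝ) * C1.pd.R ≤ B1 := by
    rw [hB1d]; exact Bq_qR hn C1.b2 C1.q_le (by linarith) C1.R_le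
  have hB2q : 2 * (C2.pd.q : ℝ) * C2.pd.R ≤ B2 := by
    rw [hB2d]; exact Bq_qR hn C2.b2 C2.q_le (by linarith) C2.R_le
  have hQ1 : (((b1 ^ n : ℕ) : ℝ)) ^ 20 ≤ B1 := by rw [hB1d]; exact Bq_Q hn C1.b2
  have hQ2 : (((b2 ^ n : ℕ) : ℝ)) ^ 20 ≤ B2 := by rw [hB2d]; exact Bq_Q hn C2.b2
  have hQ11 : 1 ≤ b1 ^ n := Nat.one_le_pow _ _ (by have := C1.b2; omega)
  have hQ21 : 1 ≤ b2 ^ n := Nat.one_le_pow _ _ (by have := C2.b2; omega)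
  have hN1 := norml_of C1.toQ
  have hN2 := norml_of C2.toQ
  obtain ⟨hTR1, hev1, hevb1, hbig1, hx1⟩ := pt_facts C1.toQ h1 hT1 hy1 hb1
  obtain ⟨hTR2, hev2, -, -, hx2⟩ := pt_facts C2.toQ h2 hT2 hy2 hb2
  change C1.pd.R * ‖T1‖ ≤ 1 / 2 at hTR1
  change 4 * (2 * C1.pd.R) ^ C1.pd.e ≤ |(x1 : ℝ)| at hbig1
  change C2.pd.R * ‖T2‖ ≤ 1 / 2 at hTR2
  obtain ⟨X, hX⟩ : ∃ X, X = |(x1 : ℝ)| := ⟨_, rfl⟩
  have hXC : B1 ^ (10 ^ 6 * n ^ 5 * E) ≤ X := by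
    rw [hX, hB1d, hE, cA_big]; exact hb1
  have hX2C : B2 ^ (10 ^ 6 * n ^ 5 * E) ≤ |(x2 : ℝ)| := by
    rw [hB2d, hE, cA_big]; exact hb2
  have hn1 : 1 ≤ n ^ 5 := Nat.one_le_pow _ _ (by omega)
  have hE1 : 4 ≤ E := hn.trans hnE
  have hCE : E + 1 ≤ 10 ^ 6 * n ^ 5 * E := by
    calc E + 1 ≤ 2 * 1 * E := by omega
      _ ≤ 10 ^ 6 * n ^ 5 * E := by gcongr; norm_num
  have hB1big : (8 : ℝ) ≤ B1 := by
    refine le_trans ?_ hB1f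
    have e1 : (4 : ℝ) ≤ n := by exact_mod_cast hn
    have e2 : (4 : ℝ) ≤ E := by exact_mod_cast hE1
    have e3 : (1 : ℝ) ≤ (n : ℝ) ^ 4 := one_le_pow₀ (by linarith)
    have e4 : (1 : ℝ) ≤ (E : ℝ) ^ 2 := one_le_pow₀ (by linarith)
    nlinarith [mul_le_mul e3 e4 (by norm_num) (by positivity)]
  have hXbig : 4 * B1 ^ E ≤ X := by
    calc 4 * B1 ^ E ≤ B1 * B1 ^ E := by gcongr; linarith
      _ = B1 ^ (E + 1) := by ring
      _ ≤ B1 ^ (10 ^ 6 * n ^ 5 * E) := pow_le_pow_right₀ hB11 hCE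
      _ ≤ X := hXC
  have hX1 : 1 < X := by
    have e1 : 1 ≤ B1 ^ E := one_le_pow₀ hB11
    linarith
  have hX0 : 0 < X := by linarith
  -- choice of la
  rw [← hX] at hlt
  obtain ⟨la, hla1, hla2⟩ := exists_nat_pow_near (x := |(x2 : ℝ)|)
    ((one_le_pow₀ hX1.le).trans hlt) hX1
  have hlaw : wA n ≤ la := by
    by_contra hc
    have : X ^ (la + 1) ≤ X ^ wA n := pow_le_pow_right₀ hX1.le (by omega)
    linarith
  have hlaw' : 640 * n ^ 3 ≤ la := hlaw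
  have hla : 60 * n ≤ la := by
    refine le_trans ?_ hlaw'
    have : n ≤ n ^ 3 := Nat.le_self_pow (by norm_num) n
    omega
  have hX2C' : B2 ^ (10 ^ 6 * n ^ 5 * E) ≤ X ^ (la + 1) := hX2C.trans hla2.le
  have hX2big : (2 * B2) ^ E ≤ |(x2 : ℝ)| := by
    rcases le_or_gt (2 : ℝ) B2 with hb | hb
    · calc (2 * B2) ^ E ≤ (B2 ^ 2) ^ E := by
            refine pow_le_pow_left₀ (by positivity) ?_ _
            nlinarith
        _ = B2 ^ (2 * E) := by rw [← pow_mul]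
        _ ≤ B2 ^ (10 ^ 6 * n ^ 5 * E) := by
            refine pow_le_pow_right₀ hB21 ?_
            calc 2 * E = 2 * 1 * E := by ring
              _ ≤ 10 ^ 6 * n ^ 5 * E := by gcongr; norm_num
        _ ≤ _ := hX2C
    · have hB2q' : (2 : ℝ) ≤ 2 * (C2.pd.q : ℝ) * C2.pd.R := by
        have e1 : (1 : ℝ) ≤ (C2.pd.q : ℝ) := by exact_mod_cast C2.pd.q_pos
        nlinarith
      linarith
  -- the auxiliary polynomial
  obtain ⟨A, ⟨a0, c0, p0, q0, hA0⟩, hAs, hAb, hAv⟩ := aux_existsS hk hn hd1n hd2n (by omega)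
    (by omega) hla hnE C1.kp C2.kp he1 he2 hB1q hB1f hB2q
  obtain ⟨Z, hZ⟩ : ∃ Z, Z = B1 ^ (129 * n * E * la) * B2 ^ (126 * n * E) := ⟨_, rfl⟩
  rw [← hZ] at hAb
  have hvan0 := hAv i hi j hj hkap
  -- smallness
  obtain ⟨κ, hκ⟩ : ∃ κ, κ = evy d1 F1 x1 y1 := ⟨_, rfl⟩
  rw [← hκ] at hev1 hevb1
  have hκ2 : κ ^ 2 ≠ 0 := pow_ne_zero 2 hev1
  obtain ⟨Y, hY0, hY⟩ := exists_local d1 F1 x1 y1 h1
  rw [← hκ] at hY
  change ev d1 (cst (PowerSeries ℤ) F1) (xs x1 (κ ^ 2)) Y = 0 at hY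
  have hκR : (0 : ℝ) < |(κ : ℝ)| := abs_pos.2 (by exact_mod_cast hev1)
  obtain ⟨ρ, hρd⟩ : ∃ ρ, ρ = X / (2 * |(κ : ℝ)| ^ 2) := ⟨_, rfl⟩
  have hρ : 0 < ρ := by rw [hρd]; positivity
  have hρx : |((κ ^ 2 : ℤ) : ℝ)| * ρ ≤ |(x1 : ℝ)| / 2 := by
    rw [hρd, ← hX]
    push_cast
    rw [abs_pow]
    refine le_of_eq ?_
    field_simp
  have huniq := uniq_branch C1.pd (x := x1) (y := y1) (by rw [← hκ]; exact hev1)
    (T := T1) (by linarith) hT1 hy1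
  obtain ⟨W, hW⟩ : ∃ W, W = Z * B1 ^ (44 * n * E * la) * B2 ^ (42 * n * E) := ⟨_, rfl⟩
  have hXea : 0 < X ^ ea la := by positivity
  have hloc : ∀ K, |((PowerSeries.coeff K (ev (20 * n * la)
      (cst (PowerSeries ℤ) (specA n A x2 y2)) (xs x1 (κ ^ 2)) Y) : ℤ) : ℝ)| * ρ ^ K ≤
      W / X ^ ea la := by
    refine loc_bound C1.pd hx1 hκ2 hY0 hY hT1 hy1 huniq hbig1 (20 * n * la) (specA n A x2 y2)
      hρ hρx ?_
    intro T x hT hx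
    rw [le_div_iff₀ hXea, hW]
    exact small_val hn hd1n hd2n hla hnE C1.pd C2.pd he1 he2 hB1q hB1f hB2q A hAs hAb i j
      hvan0 hX hXbig hla1 hla2.le hX2big hT2 hy2 hT hx
  have hvan : ∀ K ≤ la / (16 * n), PowerSeries.coeff K (ev (20 * n * la)
      (cst (PowerSeries ℤ) (specA n A x2 y2)) (xs x1 (κ ^ 2)) Y) = 0 := by
    intro K hK
    have hK' : 16 * n * K ≤ la :=
      (Nat.mul_le_mul_left _ hK).trans (Nat.mul_div_le la (16 * n))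
    have e1 := hloc K
    rw [le_div_iff₀ hXea] at e1
    have e2 : |((PowerSeries.coeff K (ev (20 * n * la)
        (cst (PowerSeries ℤ) (specA n A x2 y2)) (xs x1 (κ ^ 2)) Y) : ℤ) : ℝ)| < 1 := by
      refine num_low hn hnE hla hK' hB1f hB21 hXC hX2C' hκR (hevb1.trans (by rw [← hX]))
        (abs_nonneg _) ?_
      rw [← hρd]
      refine e1.trans (le_of_eq ?_)
      rw [hW, hZ]
      ring
    have e3 : |PowerSeries.coeff K (ev (20 * n * la)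
        (cst (PowerSeries ℤ) (specA n A x2 y2)) (xs x1 (κ ^ 2)) Y)| < 1 := by exact_mod_cast e2
    exact Int.abs_lt_one_iff.1 e3
  -- injectivity
  have hinj1 : ∀ (x1 κ : ℤ) (Y : PowerSeries ℤ), κ ≠ 0 → Lam (xs x1 κ) Y (toP d1 F1) = 0 →
      ∀ p : ℤ[X][X], p ≠ 0 → p.natDegree < d1 → Lam (xs x1 κ) Y p ≠ 0 :=
    fun x κ Y hκ hY p hp hdeg => inj_irr (by omega) C1.lead C1.irr hκ hY hp hdeg
  have hinj2 : ∀ (x1 κ : ℤ) (Y : PowerSeries ℤ), κ ≠ 0 → Lam (xs x1 κ) Y (toP d2 F2) = 0 →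
      ∀ p : ℤ[X][X], p ≠ 0 → p.natDegree < d2 → Lam (xs x1 κ) Y p ≠ 0 :=
    fun x κ Y hκ hY p hp hdeg => inj_irr (by omega) C2.lead C2.irr hκ hY hp hdeg
  -- the specialised polynomial is not zero
  have hne : ∃ a b, ∑ m : Fin (19 * n) × Fin d2,
      (x2 ^ (m.1 : ℕ) * y2 ^ (m.2 : ℕ)) * A a b m.1 m.2 ≠ 0 := by
    refine ⟨a0, c0, ?_⟩
    rw [← specA_eq hd2n hAs x2 y2 a0 c0]
    refine nzI hN2 hinj2 x2 y2 hx2 h2 hev2 (20 * n) (A a0 c0) ?_ ⟨p0, q0, hA0⟩ Z (hAb a0 c0) ?_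
    · intro p q hpq
      have := (hAs a0 c0 p q hpq).2
      exact ⟨by omega, this.2⟩
    · rw [hZ]
      exact num_nz hn hd2 hd2n hnE hla hQ21 hB1f hQ2 hXC hX2C hla1
  have hspec : specA n A x2 y2 = fun a b => ∑ m : Fin (19 * n) × Fin d2,
      (x2 ^ (m.1 : ℕ) * y2 ^ (m.2 : ℕ)) * A a b m.1 m.2 := by
    funext a b
    exact specA_eq hd2n hAs x2 y2 a b
  have hcard : Fintype.card (Fin (19 * n) × Fin d2) = 19 * n * d2 := by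
    rw [Fintype.card_prod, Fintype.card_fin, Fintype.card_fin]
  have hfin := multI hN1 hinj1 x1 y1 hx1 (by rw [← hκ]; exact hev1) Y hY0
    (by rw [← hκ]; exact hY) (20 * n * la) (19 * n * d2) hcard
    (fun m a b => A a b m.1 m.2) (fun m a b h => (hAs a b m.1 m.2 h).1) Z
    (fun m a b => hAb a b m.1 m.2) (fun m => x2 ^ (m.1 : ℕ) * y2 ^ (m.2 : ℕ)) hne
    (la / (16 * n)) (by
      intro K hK
      rw [← hκ, ← hspec]
      exact hvan K hK)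
  rw [← hX, hZ] at hfin
  refine num_zero hn (by omega) hd1n hnE (r0 := 19 * n * d2) ?_ ?_ hlaw' hQ11 hB1f hQ1 hB21
    hXC hX2C' hfin
  · exact Nat.mul_pos (by omega) (by omega)
  · calc 19 * n * d2 ≤ 19 * n * n := Nat.mul_le_mul_left _ hd2n
      _ = 19 * n ^ 2 := by ring

/-- Two integer points above the thresholds, on curves with `k` at the real points at infinity, on
branches of the same type: the larger one is at most a fixed power of the smaller one. -/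
theorem repelS {k : Type} [Field k] [NumberField k] (hk : 3 ≤ Module.finrank ℚ k)
    {τ : k →+* ℝ} {n : ℕ} {x1 y1 x2 y2 : ℤ} (h1 : ExcT k τ n (cA n) x1 y1)
    (h2 : ExcT k τ n (cA n) x2 y2) : |(x2 : ℝ)| ≤ |(x1 : ℝ)| ^ wA n := by
  obtain ⟨d1, b1, F1, C1, i, T1, hz1, hT1, hs1, hi, hk1, hb1⟩ := h1
  obtain ⟨d2, b2, F2, C2, j, T2, hz2, hT2, hs2, hj, hk2, hb2⟩ := h2
  by_contra hcon
  push Not at hcon
  exact two_pointS hk C1 C2 hi hj (hk1.trans hk2.symm) hz1 hz2 hT1 hT2 hs1.tsum_eq hs2.tsum_eq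
    hb1 hb2 hcon.le

end Pool.Agent.H37.AT
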