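import Pool.Agent.H8.AW.Win
import Pool.Agent.H37.AL.TTwo

/-!
# MP_821da1_nt, THEOREM ALG: an integer point above the threshold lies on a real branch; windows

`CrvM k`: a curve whose real branches carry some member of the finite family `k`.
-/

namespace Pool.Agent.H37.AT

open Finset Polynomial Pool.Agent.H72.ES Pool.Agent.H87.SA2 Pool.Agent.H8.AW Pool.Agent.H52.AC

/-- A curve all of whose real branches at infinity carry some `k c`, all constants bounded by `b`. -/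
structure CrvM {ι : Type} (k : ι → Type) [∀ c, Field (k c)] (n d b : ℕ) (F : ℕ → ℕ → ℤ) where
  d4 : 4 ≤ d
  dn : d ≤ n
  b2 : 2 ≤ b
  lead : F 0 d = 1
  le : ∀ i j, |F i j| ≤ (b : ℤ)
  irr : Irreducible (FQ d F)
  pd : PData (fI d F) d
  e_le : pd.e ≤ d.factorial
  q_le : pd.q ≤ b
  R_le : pd.R ≤ b
  kp : ∀ c, KapT (k c) pd
  real_mem : ∀ (i : Fin d) (ζ : ℂ), ζ ^ pd.e = 1 →
    PowerSeries.rescale ζ ((pd.x i).map (starRingEnd ℂ)) = pd.x i → ∃ c, i ∈ (kp c).S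
  bez : ∃ (u v : ℤ[X][X]) (c : ℤ[X]), c ≠ 0 ∧ u * fI d F + v * derivative (fI d F) = C c ∧
    c.natDegree ≤ 2 * d * d ∧ ∀ i, |c.coeff i| ≤ (b : ℤ)

/-- one field of the family -/
def CrvM.toT {ι : Type} {k : ι → Type} [∀ c, Field (k c)] {n d b : ℕ} {F : ℕ → ℕ → ℤ}
    (Q : CrvM k n d b F) (c : ι) : CrvT (k c) n d b F where
  d4 := Q.d4
  dn := Q.dn
  b2 := Q.b2
  lead := Q.lead
  le := Q.le
  irr := Q.irr
  pd := Q.pd
  e_le := Q.e_le
  q_le := Q.q_le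
  R_le := Q.R_le
  kp := Q.kp c
  bez := Q.bez

/-- forget the fields -/
noncomputable def CrvM.toQ {ι : Type} {k : ι → Type} [∀ c, Field (k c)] {n d b : ℕ}
    {F : ℕ → ℕ → ℤ} (Q : CrvM k n d b F) : CrvA ℚ n d b F where
  d4 := Q.d4
  dn := Q.dn
  b2 := Q.b2
  lead := Q.lead
  le := Q.le
  irr := Q.irr
  pd := Q.pd
  e_le := Q.e_le
  q_le := Q.q_le
  R_le := Q.R_le
  kp := kapQ Q.pd
  bez := Q.bez

variable {ι : Type} {k : ι → Type} [∀ c, Field (k c)] {n d b : ℕ} {F : ℕ → ℕ → ℤ}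

/-- the branch of a real point is in some `S`, and its embedding is real -/
theorem CrvM.real [∀ c, NumberField (k c)] (Q : CrvM k n d b F) {x y : ℤ}
    (hx : (b : ℝ) + 1 ≤ |(x : ℝ)|) {T : ℂ} (hT : Q.pd.R * ‖T‖ < 1)
    (hTx : ((Q.pd.q : ℂ) * T) ^ Q.pd.e * (x : ℂ) = 1) {i : Fin d}
    (hi : evT T (Q.pd.x i) = (y : ℂ) / (x : ℂ)) :
    ∃ c, i ∈ (Q.kp c).S ∧ ∃ τ : k c →+* ℝ, (Q.kp c).kap i = Complex.ofRealHom.comp τ := by
  have hxC : (x : ℂ) ≠ 0 := by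
    rintro h
    rw [h, mul_zero] at hTx
    exact zero_ne_one hTx
  have ht : ((Q.pd.q : ℂ) * T) ^ Q.pd.e = 1 / (x : ℂ) := by
    rw [eq_div_iff hxC]
    exact hTx
  have he : Q.pd.e ≠ 0 := by have := Q.pd.e_pos; omega
  have hT0 : T ≠ 0 := by
    rintro rfl
    rw [mul_zero, zero_pow he] at ht
    exact one_div_ne_zero hxC ht.symm
  have hq0 : (Q.pd.q : ℂ) ≠ 0 := by
    have := Q.pd.q_pos
    exact_mod_cast (by omega : Q.pd.q ≠ 0)
  obtain ⟨j, hj⟩ := perm_of Q.pd (PowerSeries.map (starRingEnd ℂ)) (tq_conj' _ _) i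
  set ζ : ℂ := starRingEnd ℂ T / T with hζ
  have hζT : ζ * T = starRingEnd ℂ T := by rw [hζ]; field_simp
  have hζe : ζ ^ Q.pd.e = 1 := by
    have h1 : starRingEnd ℂ (((Q.pd.q : ℂ) * T) ^ Q.pd.e) = ((Q.pd.q : ℂ) * T) ^ Q.pd.e := by
      rw [ht]
      simp
    rw [map_pow, map_mul, Complex.conj_natCast, mul_pow, mul_pow] at h1
    have h2 := mul_left_cancel₀ (pow_ne_zero _ hq0) h1
    rw [hζ, div_pow, h2]
    exact div_self (pow_ne_zero _ hT0)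
  obtain ⟨l, hl⟩ := perm_of Q.pd (PowerSeries.rescale ζ) (tq_rescale hζe) j
  have hev : evT T (Q.pd.x l) = (y : ℂ) / (x : ℂ) := by
    rw [← hl, evT_rescale, hζT, ← hj, evT_conj, hi]
    simp
  have hli : l = i := Q.toQ.sep hx hT hTx (hev.trans hi.symm)
  have hiS : ∃ c, i ∈ (Q.kp c).S := by
    refine Q.real_mem i ζ hζe ?_
    have h1 : PowerSeries.map (starRingEnd ℂ) (Q.pd.x i) = Q.pd.x j := hj
    rw [h1, hl, hli]
  obtain ⟨c, hiS⟩ := hiS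
  refine ⟨c, hiS, ?_⟩
  obtain ⟨hjS, hk2'⟩ := (Q.kp c).gal ((starRingEnd ℂ).comp (algebraMap AA ℂ)) i hiS j (by
    intro m a ha
    rw [← hj]
    change starRingEnd ℂ (a : ℂ) = PowerSeries.coeff m ((Q.pd.x i).map (starRingEnd ℂ))
    rw [PowerSeries.coeff_map, ha])
  have hk1 : (Q.kp c).kap l = (Q.kp c).kap j := ((Q.kp c).rot ζ j hjS l hζe hl).2
  have hk2 : ∀ z : k c, starRingEnd ℂ ((Q.kp c).kap i z) = (Q.kp c).kap j z := by
    intro z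
    have halg : (Q.kp c).kap i z ∈ AA := by
      rw [mem_algebraicClosure_iff]
      have h1 : IsIntegral ℚ z := Algebra.IsIntegral.isIntegral z
      exact (h1.map (((Q.kp c).kap i).toRatAlgHom)).isAlgebraic
    exact hk2' z ⟨_, halg⟩ rfl
  have hreal : NumberField.ComplexEmbedding.IsReal ((Q.kp c).kap i) := by
    rw [NumberField.ComplexEmbedding.isReal_iff]
    refine RingHom.ext fun z => ?_
    rw [NumberField.ComplexEmbedding.conjugate_coe_eq, hk2, ← hk1, hli]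
  refine ⟨hreal.embedding, RingHom.ext fun z => ?_⟩
  rw [RingHom.comp_apply]
  exact (hreal.coe_embedding_apply z).symm

/-- **An integer point above the threshold is exceptional.** -/
theorem CrvM.exc [∀ c, NumberField (k c)] (Q : CrvM k n d b F) {c : ℕ} (hc : 4 * n.factorial ≤ c)
    {x y : ℤ} (hz : ev d F x y = 0) (hx : (b : ℝ) ^ c ≤ |(x : ℝ)|) :
    ∃ (g : ι) (τ : k g →+* ℝ), ExcT (k g) τ n c x y := by
  have hb2 : (2 : ℝ) ≤ b := by exact_mod_cast Q.b2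
  have hn1 : 1 ≤ n.factorial := Nat.factorial_pos n
  have hb1 : (b : ℝ) + 1 ≤ |(x : ℝ)| := by
    calc (b : ℝ) + 1 ≤ (b : ℝ) ^ 2 := by nlinarith
      _ ≤ (b : ℝ) ^ c := pow_le_pow_right₀ (by linarith) (by omega)
      _ ≤ _ := hx
  have hx0 : x ≠ 0 := by
    rintro rfl
    rw [Int.cast_zero, abs_zero] at hb1
    linarith
  have hxC : (x : ℂ) ≠ 0 := by exact_mod_cast hx0
  have he : 0 < Q.pd.e := Q.pd.e_pos
  have hq0 : (Q.pd.q : ℂ) ≠ 0 := by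
    have := Q.pd.q_pos
    exact_mod_cast (by omega : Q.pd.q ≠ 0)
  obtain ⟨S, hS⟩ := IsAlgClosed.exists_pow_nat_eq (1 / (x : ℂ)) he
  set T : ℂ := S / (Q.pd.q : ℂ) with hTdef
  have hqT : (Q.pd.q : ℂ) * T = S := by rw [hTdef]; field_simp
  have hTx : ((Q.pd.q : ℂ) * T) ^ Q.pd.e * (x : ℂ) = 1 := by
    rw [hqT, hS]
    field_simp
  have hSn : ‖S‖ < 1 / (b : ℝ) ^ 2 := by
    by_contra hcon
    push Not at hcon
    have hb0 : (0 : ℝ) < (b : ℝ) ^ 2 := by positivity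
    have h1 : (1 / (b : ℝ) ^ 2) ^ Q.pd.e ≤ ‖S‖ ^ Q.pd.e :=
      pow_le_pow_left₀ (by positivity) hcon _
    rw [← norm_pow, hS, norm_div, norm_one, Complex.norm_intCast, one_div_pow] at h1
    have hxp : (0 : ℝ) < |(x : ℝ)| := by linarith
    rw [one_div_le_one_div (by positivity) hxp, ← pow_mul] at h1
    have h2 : 2 * Q.pd.e < c := by
      have h3 : Q.pd.e ≤ n.factorial := Q.e_le.trans (Nat.factorial_le Q.dn)
      omega
    have h3 : (b : ℝ) ^ (2 * Q.pd.e) < (b : ℝ) ^ c := pow_lt_pow_right₀ (by linarith) h2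
    linarith
  have hTn : ‖T‖ ≤ ‖S‖ := by
    rw [hTdef, norm_div, Complex.norm_natCast]
    have h1 : (1 : ℝ) ≤ Q.pd.q := by exact_mod_cast Q.pd.q_pos
    exact div_le_self (norm_nonneg _) h1
  have hT : Q.pd.R * ‖T‖ < 1 := by
    have h1 : Q.pd.R * ‖T‖ ≤ b * ‖S‖ :=
      mul_le_mul Q.R_le hTn (norm_nonneg _) (by linarith)
    have h2 : (b : ℝ) * ‖S‖ < b * (1 / (b : ℝ) ^ 2) :=
      mul_lt_mul_of_pos_left hSn (by linarith)
    have h3 : (b : ℝ) * (1 / (b : ℝ) ^ 2) ≤ 1 := by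
      have : (b : ℝ) ≠ 0 := by linarith
      rw [mul_one_div, div_le_one (by positivity)]
      nlinarith
    linarith
  obtain ⟨i, hi⟩ := Q.toQ.branch hz hx0 hT hTx
  change evT T (Q.pd.x i) = (y : ℂ) / (x : ℂ) at hi
  obtain ⟨g, hiS, τ, hτ⟩ := Q.real hb1 hT hTx hi
  refine ⟨g, τ, d, b, F, Q.toT g, i, T, hz, hTx, ?_, hiS, hτ, hx⟩
  change HasSum (fun m => PowerSeries.coeff m (Q.pd.x i) * T ^ m) ((y : ℂ) / (x : ℂ))
  rw [← hi]
  have hR : 0 ≤ Q.pd.R := by linarith [Q.pd.R_ge]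
  exact (CvT_of hR (Q.pd.growth i) hT).hasSum

/-- the embeddings composed with an automorphism of `k` -/
def KapT.twist {k : Type} [Field k] {f : ℤ[X][X]} {pd : PData f d} (K : KapT k pd) (α : k ≃+* k) :
    KapT k pd where
  S := K.S
  kap i := (K.kap i).comp (α : k →+* k)
  gal σ i hi j h := ⟨(K.gal σ i hi j h).1, fun z a ha => (K.gal σ i hi j h).2 (α z) a ha⟩
  rot ζ i hi j h h' := ⟨(K.rot ζ i hi j h h').1, by rw [(K.rot ζ i hi j h h').2]⟩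

/-- the type may be changed by an automorphism of `k` -/
theorem ExcT.twist {k : Type} [Field k] {τ : k →+* ℝ} {c : ℕ} {x y : ℤ} (h : ExcT k τ n c x y)
    (α : k ≃+* k) : ExcT k (τ.comp (α : k →+* k)) n c x y := by
  obtain ⟨d, b, F, Q, i, T, h1, h2, h3, h4, h5, h6⟩ := h
  refine ⟨d, b, F, { Q with kp := Q.kp.twist α }, i, T, h1, h2, h3, h4, ?_, h6⟩
  change (Q.kp.kap i).comp (α : k →+* k) = _
  rw [h5]
  rfl

/-- the exceptional sizes belonging to a subfield of `ℝ`; the size `m` and the coordinate `x` are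
comparable up to the power `a` -/
def SizeT (k : Type) [Field k] (K : Subfield ℝ) (n c a m : ℕ) : Prop :=
  ∃ (τ : k →+* ℝ) (x y : ℤ), τ.fieldRange = K ∧ ExcT k τ n c x y ∧
    |(x : ℝ)| ≤ (m : ℝ) ^ a ∧ (m : ℝ) ≤ |(x : ℝ)| ^ a

theorem sizeT_repel {k : Type} [Field k] {K : Subfield ℝ} {n c a w : ℕ}
    (hrep : ∀ (τ : k →+* ℝ) (x1 y1 x2 y2 : ℤ), ExcT k τ n c x1 y1 → ExcT k τ n c x2 y2 →
      |(x2 : ℝ)| ≤ |(x1 : ℝ)| ^ w) {m1 m2 : ℕ}
    (h1 : SizeT k K n c a m1) (h2 : SizeT k K n c a m2) : m2 ≤ m1 ^ (a * w * a) := by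
  obtain ⟨τ1, x1, y1, hK1, he1, hl1, hu1⟩ := h1
  obtain ⟨τ2, x2, y2, hK2, he2, hl2, hu2⟩ := h2
  obtain ⟨α, hα⟩ := exists_aut (hK2.trans hK1.symm)
  have he2' := he2.twist α
  rw [← hα] at he2'
  have h3 := hrep τ1 x1 y1 x2 y2 he1 he2'
  have h4 : (m2 : ℝ) ≤ (m1 : ℝ) ^ (a * w * a) := by
    calc (m2 : ℝ) ≤ |(x2 : ℝ)| ^ a := hu2
      _ ≤ (|(x1 : ℝ)| ^ w) ^ a := pow_le_pow_left₀ (abs_nonneg _) h3 _
      _ ≤ (((m1 : ℝ) ^ a) ^ w) ^ a := by gcongr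
      _ = (m1 : ℝ) ^ (a * w * a) := by
          rw [← pow_mul, ← pow_mul]
          congr 1
          ring
  exact_mod_cast h4

/-- **At most one window for each subfield of `ℝ` isomorphic to `k`.** -/
theorem windowsT (k : Type) [Field k] [NumberField k] {n c a w : ℕ}
    (hrep : ∀ (τ : k →+* ℝ) (x1 y1 x2 y2 : ℤ), ExcT k τ n c x1 y1 → ExcT k τ n c x2 y2 →
      |(x2 : ℝ)| ≤ |(x1 : ℝ)| ^ w) :
    ∃ S : Finset ℕ, S.card ≤ Set.ncard {K : Subfield ℝ | Nonempty (k ≃+* K)} ∧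
      ∀ (τ : k →+* ℝ) (x y : ℤ) (m : ℕ), ExcT k τ n c x y → |(x : ℝ)| ≤ (m : ℝ) ^ a →
        (m : ℝ) ≤ |(x : ℝ)| ^ a → ∃ M ∈ S, M ≤ m ∧ m ≤ M ^ (a * w * a) := by
  classical
  have hfin := finite_realA k
  have : Fintype {K : Subfield ℝ | Nonempty (k ≃+* K)} := hfin.fintype
  let M : {K : Subfield ℝ | Nonempty (k ≃+* K)} → ℕ := fun K =>
    if h : ∃ m : ℕ, SizeT k K n c a m then Nat.find h else 0
  refine ⟨univ.image M, ?_, ?_⟩
  · refine card_image_le.trans ?_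
    rw [card_univ, ← Nat.card_eq_fintype_card, Nat.card_coe_set_eq]
  · intro τ x y m he hl hu
    obtain ⟨K, hK⟩ : ∃ K : {K : Subfield ℝ | Nonempty (k ≃+* K)}, (K : Subfield ℝ) =
      τ.fieldRange := ⟨⟨τ.fieldRange, ⟨τ.rangeRestrictFieldEquiv⟩⟩, rfl⟩
    have hS : SizeT k K n c a m := ⟨τ, x, y, hK.symm, he, hl, hu⟩
    have hex : ∃ m : ℕ, SizeT k K n c a m := ⟨m, hS⟩
    have hMi : M K = Nat.find hex := dif_pos hex
    refine ⟨M K, mem_image_of_mem _ (mem_univ _), ?_, ?_⟩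
    · rw [hMi]
      exact Nat.find_min' hex hS
    · rw [hMi]
      exact sizeT_repel hrep (Nat.find_spec hex) hS

/-- windows for a finite family of fields -/
theorem windowsM [Fintype ι] [∀ c, NumberField (k c)] (hk : ∀ c, 3 ≤ Module.finrank ℚ (k c))
    (a : ℕ) :
    ∃ S : Finset ℕ, S.card ≤ ∑ c, Set.ncard {K : Subfield ℝ | Nonempty (k c ≃+* K)} ∧
      ∀ (g : ι) (τ : k g →+* ℝ) (x y : ℤ) (m : ℕ), ExcT (k g) τ n (cA n) x y →
        |(x : ℝ)| ≤ (m : ℝ) ^ a → (m : ℝ) ≤ |(x : ℝ)| ^ a →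
        ∃ M ∈ S, M ≤ m ∧ m ≤ M ^ (a * wA n * a) := by
  classical
  have h1 : ∀ c : ι, ∃ S : Finset ℕ,
      S.card ≤ Set.ncard {K : Subfield ℝ | Nonempty (k c ≃+* K)} ∧
      ∀ (τ : k c →+* ℝ) (x y : ℤ) (m : ℕ), ExcT (k c) τ n (cA n) x y → |(x : ℝ)| ≤ (m : ℝ) ^ a →
        (m : ℝ) ≤ |(x : ℝ)| ^ a → ∃ M ∈ S, M ≤ m ∧ m ≤ M ^ (a * wA n * a) :=
    fun c => windowsT (k c) (fun τ x1 y1 x2 y2 h1 h2 => repelS (hk c) h1 h2)
  choose S hS hw using h1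
  refine ⟨univ.biUnion S, card_biUnion_le.trans (sum_le_sum fun c _ => hS c), ?_⟩
  intro g τ x y m h2 h3 h4
  obtain ⟨M, hM, h5⟩ := hw g τ x y m h2 h3 h4
  exact ⟨M, mem_biUnion.2 ⟨g, mem_univ g, hM⟩, h5⟩

end Pool.Agent.H37.AT
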