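import Pool.Agent.H37.AL.TKap
import Pool.Agent.H37.AL.TPt
import Pool.Agent.H34.AC.RedR
import Pool.Agent.H8.AF.Num

/-! # [H37 AL TRED] The reduction and the windows for a family of fields

`Pr K` is a property of number fields, `InfP Pr F`: every real number field `K` over which `F = 0` has
a point at infinity has the property `Pr`. -/

namespace Pool.Agent.H37.AT

open Finset Polynomial Pool.Agent.H72.ES Pool.Agent.H87.SA2 Pool.Agent.H97.XC Pool.Agent.H34.AC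
  Pool.Agent.H8.AF Pool.Agent.H8.AW Pool.Agent.H52.AC

/-- every real number field with a point of `F = 0` at infinity has the property `Pr` -/
def InfP (Pr : ∀ (K : Type) [Field K], Prop) (F : MvPolynomial (Fin 2) ℤ) : Prop :=
  ∀ (K : Type) [Field K] [NumberField K], Nonempty (K →+* ℝ) →
    ∀ (X Y : LaurentSeries K), vl F X Y = 0 →
      (X ∈ (HahnSeries.ofPowerSeries ℤ K).range ∧ Y ∈ (HahnSeries.ofPowerSeries ℤ K).range) ∨ Pr K

theorem no_zmod {K : Type} [Field K] [CharZero K] (f : ZMod 2 →+* K) : False := by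
  have h2 : f 2 = 0 := by
    have h3 : (2 : ZMod 2) = 0 := by decide
    rw [h3, map_zero]
  rw [map_ofNat] at h2
  exact two_ne_zero h2

/-- a curve `p(x) = 0` with an integer point has a point at infinity over `ℚ` -/
theorem exists_yP {Pr : ∀ (K : Type) [Field K], Prop} (hQ : ¬ Pr ℚ)
    {F : MvPolynomial (Fin 2) ℤ} (hinf : InfP Pr F) {x0 y0 : ℤ} (h0 : vl F x0 y0 = 0) :
    ∃ m ∈ F.support, 1 ≤ m 1 := by
  by_contra hcon
  push Not at hcon
  obtain ⟨ι, hι⟩ : ∃ ι : PowerSeries ℚ →+* LaurentSeries ℚ, ι = HahnSeries.ofPowerSeries ℤ ℚ :=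
    ⟨_, rfl⟩
  have hιinj : Function.Injective ι := by
    rw [hι]
    exact HahnSeries.ofPowerSeries_injective
  have hιt : ι PowerSeries.X ≠ 0 := by
    intro h0
    exact PowerSeries.X_ne_zero (hιinj (h0.trans (map_zero _).symm))
  have h1 : vl F (x0 : LaurentSeries ℚ) (ι PowerSeries.X)⁻¹ = 0 := by
    have h2 : vl F (x0 : LaurentSeries ℚ) (ι PowerSeries.X)⁻¹ =
        vl F (x0 : LaurentSeries ℚ) (y0 : LaurentSeries ℚ) := by
      rw [vl_eq, vl_eq]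
      refine Finset.sum_congr rfl fun m hm => ?_
      have h3 : m 1 = 0 := by
        have := hcon m hm
        omega
      rw [h3, pow_zero, pow_zero]
    rw [h2]
    have h3 := vl_hom (Int.castRingHom (LaurentSeries ℚ)) F x0 y0
    rw [h0, map_zero] at h3
    exact h3.symm
  rcases hinf ℚ ⟨algebraMap ℚ ℝ⟩ _ _ h1 with ⟨_, h3⟩ | h
  · rw [← hι] at h3
    obtain ⟨v, hv⟩ := h3
    have h4 : v * PowerSeries.X = 1 := by
      apply hιinj
      rw [map_mul, hv, inv_mul_cancel₀ hιt, map_one]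
    have h5 := congrArg PowerSeries.constantCoeff h4
    rw [map_mul, PowerSeries.constantCoeff_X, mul_zero, map_one] at h5
    exact zero_ne_one h5
  · exact hQ h

theorem red_rawP (n : ℕ) (hn3 : 3 ≤ n) (F : MvPolynomial (Fin 2) ℤ)
    (hirr : Irreducible (MvPolynomial.map (Int.castRingHom ℚ) F)) (hn : F.totalDegree ≤ n)
    (H : ℕ) (hH2 : 2 ≤ H) (hH : ∀ m, |F.coeff m| ≤ (H : ℤ)) (hy : ∃ m ∈ F.support, 1 ≤ m 1) :
    ∃ (d b : ℕ) (F' : ℕ → ℕ → ℤ) (a : ℤ), 4 ≤ d ∧ d ≤ n * (n + 1) ∧ 2 ≤ b ∧ F' 0 d = 1 ∧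
      (∀ i j, |F' i j| ≤ (b : ℤ)) ∧ Irreducible (H8.AW.FQ d F') ∧
      (∃ pd : PData (H8.AW.fI d F') d, pd.e ≤ d.factorial ∧ pd.q ≤ b ∧ pd.R ≤ b) ∧
      (∀ (K : Type) [Field K] [CharZero K] (P : Prop),
        (∀ (X Y : LaurentSeries K), vl F X Y = 0 →
          (X ∈ (HahnSeries.ofPowerSeries ℤ K).range ∧ Y ∈ (HahnSeries.ofPowerSeries ℤ K).range) ∨
            P) →
        ∀ (r : K) (e : ℕ) (x : PowerSeries K), r ≠ 0 → 1 ≤ e →
          ((H8.AW.fI d F').map (tQ K r e)).eval x = 0 → P) ∧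
      (∃ (u v : ℤ[X][X]) (c : ℤ[X]), c ≠ 0 ∧
        u * H8.AW.fI d F' + v * derivative (H8.AW.fI d F') = C c ∧
        c.natDegree ≤ 2 * d * d ∧ ∀ i, |c.coeff i| ≤ (b : ℤ)) ∧
      b ≤ H ^ cR n ∧ a ≠ 0 ∧ |a| ≤ (H : ℤ) ∧
      ∀ x y : ℤ, vl F x y = 0 → ev d F' (y + x ^ (n + 1)) (a * x) = 0 := by
  have hF0 : F ≠ 0 := by
    intro h
    rw [h, map_zero] at hirr
    exact not_irreducible_zero hirr
  have hM : n < n + 1 := Nat.lt_succ_self n
  have hM1 : 1 ≤ n + 1 := by omega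
  have hH1 : 1 ≤ H := by omega
  obtain ⟨m, hm, hm1⟩ := hy
  obtain ⟨D, hD⟩ : ∃ D, D = Dg (n + 1) F := ⟨_, rfl⟩
  have hD4 : 4 ≤ D := by
    have h1 := le_Dg (n + 1) F m hm
    have h2 : (n + 1) * 1 ≤ (n + 1) * m 1 := Nat.mul_le_mul_left _ hm1
    omega
  have hDn : D ≤ n * (n + 1) := hD ▸ Dg_le hM1 hn
  obtain ⟨a, ha0, haH, ha⟩ := Gt_lead hM hn hH hF0
  have hF'1 : Ft (n + 1) D a F 0 D = 1 := by
    unfold Ft
    rw [if_neg (lt_irrefl D), if_pos ⟨rfl, rfl⟩]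
  obtain ⟨B, hB⟩ : ∃ B, B = 2 ^ n * H ^ NR n := ⟨_, rfl⟩
  have hB1 : 1 ≤ B := by
    rw [hB]
    exact Nat.mul_pos Nat.one_le_two_pow (Nat.one_le_pow _ _ hH1)
  have hle : ∀ i j, |Ft (n + 1) D a F i j| ≤ (B : ℤ) := by
    intro i j
    rw [hB]
    exact Ft_le hM hH1 haH hn hH hDn i j
  have hFirr : Irreducible (H8.AW.FQ D (Ft (n + 1) D a F)) := by
    rw [hD]
    exact Ft_irr hM1 ha0 (by omega) ha hirr
  have hbd := fI_bd (d := D) hle
  obtain ⟨hmon, hdeg⟩ := fI_monic hF'1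
  have hsq := fI_sqf hF'1 hFirr
  obtain ⟨b1, b2, c, hc0, hbez, hcdeg, hcle⟩ := disc_bd hmon hdeg (by omega) hbd hB1 hsq
  obtain ⟨pd, hpe, hpq, hpR, _⟩ := exists_pdata_bd (H8.AW.fI D (Ft (n + 1) D a F)) hmon
    (s := sz D D) hdeg (by omega) hbd hB1 b1 b2 c hc0 hbez (by unfold sz; gcongr)
  have hbR := bR_le hH2 (by omega : 1 ≤ D) hDn
  rw [← hB] at hbR
  have hinf1 : ∀ (K : Type) [Field K] [CharZero K] (P : Prop),
      (∀ (X Y : LaurentSeries K), vl F X Y = 0 →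
        (X ∈ (HahnSeries.ofPowerSeries ℤ K).range ∧ Y ∈ (HahnSeries.ofPowerSeries ℤ K).range) ∨
          P) →
      ∀ (r : K) (e : ℕ) (x : PowerSeries K), r ≠ 0 → 1 ≤ e →
        ((H8.AW.fI D (Ft (n + 1) D a F)).map (tQ K r e)).eval x = 0 → P := by
    intro K _ _ P hK r e x hr he hx
    by_contra hP
    obtain ⟨φ⟩ := inf_inf1K (ZMod 2) K (F := F) (fun X Y hXY => by
      rcases hK X Y hXY with h | h
      · exact Or.inl h
      · exact absurd h hP) (n + 1) D (Ft (n + 1) D a F) a ha0 (by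
      intro S _ x y
      rw [hD]
      exact Ft_ev hM1 (by omega) ha x y) r e x hr he hx
    exact no_zmod φ
  have hCCb : CC D D B (sz D D) ≤ bR D B := by unfold bR; omega
  have hhcb : hc D D B ≤ bR D B := by unfold bR; omega
  have hBb : B ≤ bR D B := by unfold bR; omega
  have h2b : 2 ≤ bR D B := by unfold bR; omega
  refine ⟨D, bR D B, Ft (n + 1) D a F, a, hD4, hDn, h2b, hF'1,
    fun i j => (hle i j).trans (by exact_mod_cast hBb), hFirr, ⟨pd, hpe, ?_, ?_⟩, hinf1,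
    ⟨b1, b2, c, hc0, hbez, hcdeg, fun i => (hcle i).trans (by exact_mod_cast hhcb)⟩, hbR, ha0,
    haH, ?_⟩
  · have h1 : pd.q ≤ CC D D B (sz D D) := by exact_mod_cast hpq
    exact h1.trans hCCb
  · exact hpR.trans (by exact_mod_cast hCCb)
  · intro x y hxy
    have h1 := Ft_ev hM1 (by omega) ha x y
    rw [hxy, mul_zero, ← hD] at h1
    rw [← h1]
    congr 1

variable {ι : Type} {k : ι → Type} [∀ c, Field (k c)]

theorem redM [∀ c, NumberField (k c)] (hk : ∀ c, 2 ≤ Module.finrank ℚ (k c)) (n : ℕ)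
    (hn3 : 3 ≤ n) (F : MvPolynomial (Fin 2) ℤ)
    (hirr : Irreducible (MvPolynomial.map (Int.castRingHom ℚ) F)) (hn : F.totalDegree ≤ n)
    (H : ℕ) (hH2 : 2 ≤ H) (hH : ∀ m, |F.coeff m| ≤ (H : ℤ))
    (hinf : InfP (fun K _ => ∃ c, Nonempty (k c →+* K)) F) (x0 y0 : ℤ) (h0 : vl F x0 y0 = 0) :
    ∃ (d b : ℕ) (F' : ℕ → ℕ → ℤ) (a : ℤ), Nonempty (CrvM k (n * (n + 1)) d b F') ∧
      b ≤ H ^ cR n ∧ a ≠ 0 ∧ |a| ≤ (H : ℤ) ∧
      ∀ x y : ℤ, vl F x y = 0 → ev d F' (y + x ^ (n + 1)) (a * x) = 0 := by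
  have hQ : ¬ ∃ c, Nonempty (k c →+* ℚ) := by
    rintro ⟨c, ⟨κ⟩⟩
    have h2 := LinearMap.finrank_le_finrank_of_injective (f := κ.toRatAlgHom.toLinearMap)
      κ.injective
    rw [Module.finrank_self] at h2
    have := hk c
    omega
  obtain ⟨d, b, F', a, h1, h2, h3, h4, h5, h6, ⟨pd, h7, h8, h9⟩, h10, h11, h12, h13, h14, h15⟩ :=
    red_rawP n hn3 F hirr hn H hH2 hH (exists_yP hQ hinf h0)
  obtain ⟨ξ, hξ, hs, hinj⟩ := exists_xi pd
  choose kp hkp using fun c => exists_kapT (k c) pd hξ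
  refine ⟨d, b, F', a, ⟨
    { d4 := h1
      dn := h2
      b2 := h3
      lead := h4
      le := h5
      irr := h6
      pd := pd
      e_le := h7
      q_le := h8
      R_le := h9
      kp := kp
      real_mem := ?_
      bez := h11 }⟩, h12, h13, h14, h15⟩
  intro i ζ hζ hi
  have hr := real_branch pd hξ i ζ hζ hi
  obtain ⟨c, hc⟩ := Kf_real (P := fun K _ => ∃ c, Nonempty (k c →+* K))
    (fun K _ _ hK r e x hr he hx => h10 K _ (hinf K hK) r e x hr he hx) pd.e_pos pd.q_pos hs hinj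
    i hr
  exact ⟨c, hkp c i hc⟩

/-- the windows for a finite family of fields -/
theorem all_curvesM [Fintype ι] [∀ c, NumberField (k c)] (hk : ∀ c, 3 ≤ Module.finrank ℚ (k c))
    (n : ℕ) (hn : 3 ≤ n) :
    ∃ S : Finset ℕ, S.card ≤ ∑ c, Set.ncard {K : Subfield ℝ | Nonempty (k c ≃+* K)} ∧
      ∀ (F : MvPolynomial (Fin 2) ℤ), Irreducible (MvPolynomial.map (Int.castRingHom ℚ) F) →
        F.totalDegree ≤ n → InfP (fun K _ => ∃ c, Nonempty (k c →+* K)) F →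
        ∀ H : ℕ, 2 ≤ H → (∀ m, |F.coeff m| ≤ (H : ℤ)) →
        ∀ x y : ℤ, vl F x y = 0 → max x.natAbs y.natAbs ≤ H ^ cF n ∨
          ∃ M ∈ S, M ≤ max x.natAbs y.natAbs ∧ max x.natAbs y.natAbs ≤ M ^ wF n := by
  obtain ⟨S, hS, hw⟩ := windowsM hk (n := n * (n + 1)) (2 * n + 3)
  refine ⟨S, hS, ?_⟩
  intro F hirr hdeg hinf H hH2 hH x y h0
  by_contra hcon
  push Not at hcon
  obtain ⟨hbig, hno⟩ := hcon
  obtain ⟨d, b, F', a, ⟨Q⟩, hb, ha0, -, hev⟩ :=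
    redM (fun c => by have := hk c; omega) n hn F hirr hdeg H hH2 hH hinf x y h0
  obtain ⟨m, hm⟩ : ∃ m, m = max x.natAbs y.natAbs := ⟨_, rfl⟩
  rw [← hm] at hbig hno
  have hN1 : 1 ≤ n * (n + 1) := Nat.mul_pos (by omega) (by omega)
  obtain ⟨hcA1, hcA2⟩ := cA_ge hN1
  have hb2 : 2 ≤ b := Q.b2
  have hd4 := Q.d4
  have hHm : b ^ (cA (n * (n + 1)) * (2 * n + 3)) < m := by
    calc b ^ (cA (n * (n + 1)) * (2 * n + 3)) ≤ (H ^ cR n) ^ (cA (n * (n + 1)) * (2 * n + 3)) :=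
          Nat.pow_le_pow_left hb _
      _ = H ^ cF n := by rw [← pow_mul, cF, mul_assoc]
      _ < m := hbig
  have hxm : |x| ≤ (m : ℤ) := by
    rw [Int.abs_eq_natAbs, hm]
    exact_mod_cast le_max_left _ _
  have hym : |y| ≤ (m : ℤ) := by
    rw [Int.abs_eq_natAbs, hm]
    exact_mod_cast le_max_right _ _
  -- the coordinate `u` is above the threshold
  have hkey : ∀ V : ℤ, (b : ℤ) ^ (2 * (n * (n + 1)) + 1) ≤ V → |y + x ^ (n + 1)| ≤ V →
      (m : ℤ) ≤ V ^ (2 * n + 3) := by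
    intro V hV hu
    obtain ⟨h1, h2⟩ := size_up (by omega) Q.dn hb2 Q.lead Q.le ha0 hV hu (hev x y h0)
    rw [hm]
    rw [Int.abs_eq_natAbs] at h1 h2
    push_cast
    rw [Int.abs_eq_natAbs, Int.abs_eq_natAbs]
    exact max_le h1 h2
  have hbc : (b : ℤ) ^ (2 * (n * (n + 1)) + 1) ≤ (b : ℤ) ^ cA (n * (n + 1)) :=
    pow_le_pow_right₀ (by exact_mod_cast (by omega : 1 ≤ b)) hcA1
  have hu : (b : ℤ) ^ cA (n * (n + 1)) ≤ |y + x ^ (n + 1)| := by
    by_contra hc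
    push Not at hc
    have h1 := hkey _ hbc hc.le
    rw [← pow_mul] at h1
    have h2 : m ≤ b ^ (cA (n * (n + 1)) * (2 * n + 3)) := by exact_mod_cast h1
    omega
  have hup : (m : ℤ) ≤ |y + x ^ (n + 1)| ^ (2 * n + 3) := hkey _ (hbc.trans hu) le_rfl
  have hm2 : (2 : ℤ) ≤ m := by
    have : 1 ≤ b ^ (cA (n * (n + 1)) * (2 * n + 3)) := Nat.one_le_pow _ _ (by omega)
    exact_mod_cast (by omega : 2 ≤ m)
  have hlow := size_low (n := n) hm2 hxm hym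
  have huR : (b : ℝ) ^ cA (n * (n + 1)) ≤ |((y + x ^ (n + 1) : ℤ) : ℝ)| := by
    have : ((b : ℤ) ^ cA (n * (n + 1)) : ℤ) ≤ |y + x ^ (n + 1)| := hu
    exact_mod_cast this
  obtain ⟨g, τ, hexc⟩ := Q.exc hcA2 (hev x y h0) huR
  obtain ⟨M, hMS, h1, h2⟩ := hw g τ _ _ m hexc (by exact_mod_cast hlow) (by exact_mod_cast hup)
  have := hno M hMS h1
  have hww : (2 * n + 3) * wA (n * (n + 1)) * (2 * n + 3) = wF n := rfl
  rw [hww] at h2
  omega

end Pool.Agent.H37.AT
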