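import Pool.Agent.H37.AL.Fac
import Pool.Agent.H4.SF.ALC

/-! # [H37 AL WIN] Chains of exceptional sizes are short -/

namespace Pool.Agent.H37.AL

open Finset Pool.Agent.H34.AC

/-- `z` is the size of an integer zero of a curve `G = 0` of degree at most `N` with `k` at the real
points at infinity, and `z > H^C` for a bound `H ≥ 2` of the coefficients -/
def Exc (k : Type) [Field k] (N C z : ℕ) : Prop :=
  ∃ (G : MvPolynomial (Fin 2) ℤ) (H : ℕ) (x y : ℤ), G.totalDegree ≤ N ∧ INFR k G ∧ 2 ≤ H ∧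
    (∀ e, |G.coeff e| ≤ (H : ℤ)) ∧ vl G x y = 0 ∧ z = sz x y ∧ H ^ C < z

/-- the least admissible exponent -/
def CA (N : ℕ) : ℕ := (2 * (N + 1) ^ 2 + 1) * 2 ^ (2 * N ^ 2).factorial

/-- the exponent of the windows -/
def WA (N : ℕ) : ℕ := 14000 * N ^ 8

theorem sz_cast (x y : ℤ) : ((sz x y : ℕ) : ℤ) = max |x| |y| := by
  rw [sz, Int.abs_eq_natAbs, Int.abs_eq_natAbs]
  push_cast
  rfl

theorem windows (k : Type) [Field k] [NumberField k] (hk : 3 ≤ Module.finrank ℚ k) {N : ℕ}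
    (hN : 3 ≤ N) :
    ∃ S : Finset ℕ, S.card ≤ Set.ncard {K : Subfield ℝ | Nonempty (k ≃+* K)} ∧
      ∀ C z : ℕ, CA N ≤ C → Exc k N C z → ∃ M ∈ S, M ≤ z ∧ z ≤ M ^ WA N := by
  obtain ⟨S, hS, h⟩ := Pool.Agent.H4.SF.allC N hN k hk
  refine ⟨S, hS, fun C z hC hz => ?_⟩
  obtain ⟨G, H, x, y, hG, hinf, hH2, hH, h0, rfl, hlt⟩ := hz
  obtain ⟨F, hFG, hirr, hdeg, hFinf, hF0, hFH⟩ := fac_inf (by omega) hH2 hG hH hinf h0
  have h2 : 2 ≤ H ^ (2 * (N + 1) ^ 2 + 1) := by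
    calc 2 ≤ H := hH2
      _ = H ^ 1 := (pow_one H).symm
      _ ≤ _ := Nat.pow_le_pow_right (by omega) (by omega)
  have h3 : MvPolynomial.eval ![x, y] F = 0 := by
    have h4 : vl F x y = MvPolynomial.eval ![x, y] F := by
      unfold vl
      rw [← MvPolynomial.eval₂_id]
      congr 1
    rw [← h4, hF0]
  rcases h F (H ^ (2 * (N + 1) ^ 2 + 1)) hdeg hirr hFinf h2 hFH x y h3 with h4 | ⟨M, hM, h4, h5⟩
  · exfalso
    rw [← sz_cast] at h4
    have h5 : sz x y ≤ (H ^ (2 * (N + 1) ^ 2 + 1)) ^ 2 ^ (2 * N ^ 2).factorial := by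
      exact_mod_cast h4
    rw [← pow_mul] at h5
    have h6 : H ^ ((2 * (N + 1) ^ 2 + 1) * 2 ^ (2 * N ^ 2).factorial) ≤ H ^ C :=
      Nat.pow_le_pow_right (by omega) hC
    omega
  · rw [← sz_cast] at h4 h5
    exact ⟨M, hM, by exact_mod_cast h4, by exact_mod_cast h5⟩

/-- a list of sizes which grow by `WA N`-th powers has at most `r` elements -/
theorem chain_len (k : Type) [Field k] [NumberField k] (hk : 3 ≤ Module.finrank ℚ k) {N C : ℕ}
    (hN : 3 ≤ N) (hC : CA N ≤ C) (l : List ℕ) (hl : ∀ z ∈ l, Exc k N C z)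
    (hp : l.Pairwise fun s t => t ^ WA N < s) :
    l.length ≤ Set.ncard {K : Subfield ℝ | Nonempty (k ≃+* K)} := by
  obtain ⟨S, hS, h⟩ := windows k hk hN
  refine le_trans ?_ hS
  have h1 : ∀ z ∈ l, ∃ M ∈ S, M ≤ z ∧ z ≤ M ^ WA N := fun z hz => h C z hC (hl z hz)
  classical
  obtain ⟨g, hg⟩ : ∃ g : ℕ → ℕ, ∀ z ∈ l, g z ∈ S ∧ g z ≤ z ∧ z ≤ g z ^ WA N := by
    choose! g hg using h1
    exact ⟨g, hg⟩
  have hnd : (l.map g).Nodup := by
    rw [List.Nodup, List.pairwise_map]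
    refine List.Pairwise.imp_of_mem ?_ hp
    intro s t hs ht hst hgg
    have h2 := (hg s hs).2.2
    have h3 := (hg t ht).2.1
    rw [hgg] at h2
    have h4 := Nat.pow_le_pow_left h3 (WA N)
    omega
  calc l.length = (l.map g).length := (List.length_map _).symm
    _ = (l.map g).toFinset.card := (List.toFinset_card_of_nodup hnd).symm
    _ ≤ S.card := by
        refine Finset.card_le_card fun M hM => ?_
        rw [List.mem_toFinset, List.mem_map] at hM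
        obtain ⟨z, hz, rfl⟩ := hM
        exact (hg z hz).1

end Pool.Agent.H37.AL
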