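import Pool.Agent.H37.AL.FacP
import Pool.Agent.H37.AL.RFQ
import Pool.Agent.H37.AL.Win
import Pool.Agent.H98.AL.Defs

/-! # [H37 AL WINQ] Windows and chains for the class of `q` -/

namespace Pool.Agent.H37.AL

open Finset Polynomial Pool.Agent.H37.AT

/-- no irreducible factor of degree one or two over `ℚ` -/
def Deg3 (q : ℤ[X]) : Prop :=
  q ≠ 0 ∧ ∀ p : ℚ[X], Irreducible p → p ∣ q.map (Int.castRingHom ℚ) → 3 ≤ p.natDegree

theorem star_inf {q : ℤ[X]} {F : MvPolynomial (Fin 2) ℤ} (h : H98.AL.Star q F) :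
    InfP (fun K _ => ∃ z : K, aeval z q = 0) F := fun K _ _ hK X Y hXY => h K hK X Y hXY

theorem inf_star {q : ℤ[X]} {F : MvPolynomial (Fin 2) ℤ}
    (h : InfP (fun K _ => ∃ z : K, aeval z q = 0) F) : H98.AL.Star q F :=
  fun K _ _ hK X Y hXY => h K hK X Y hXY

/-- the condition implies `F ≠ 0` -/
theorem star_ne {q : ℤ[X]} (hq : Deg3 q) {F : MvPolynomial (Fin 2) ℤ} (h : H98.AL.Star q F) :
    F ≠ 0 := infP_ne (no_root hq.2) (star_inf h)

/-- **The irreducible factor through an integer zero.** -/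
theorem fac_star {q : ℤ[X]} (hq : Deg3 q) {n H : ℕ} (hH2 : 2 ≤ H) {G : MvPolynomial (Fin 2) ℤ}
    (hn : G.totalDegree ≤ n) (hH : ∀ e, |G.coeff e| ≤ (H : ℤ)) (hG : H98.AL.Star q G) {x y : ℤ}
    (h0 : H98.AL.vl G x y = 0) :
    ∃ F : MvPolynomial (Fin 2) ℤ, F ∣ G ∧ Irreducible (MvPolynomial.map (Int.castRingHom ℚ) F) ∧
      F.totalDegree ≤ n ∧ H98.AL.Star q F ∧ H98.AL.vl F x y = 0 ∧
      ∀ e, |F.coeff e| ≤ ((H ^ (2 * (n + 1) ^ 2 + 1) : ℕ) : ℤ) := by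
  obtain ⟨F, h1, h2, h3, h4, h5, h6⟩ := facP (no_root hq.2) hH2 hn hH (star_inf hG) h0
  exact ⟨F, h1, h2, h3, inf_star h4, h5, h6⟩

/-- `z` is the size of an integer zero of a curve `G = 0` of degree at most `N` in the class of `q`,
and `z > H^C` for a bound `H ≥ 2` of the coefficients -/
def ExcQ (q : ℤ[X]) (N C z : ℕ) : Prop :=
  ∃ (G : MvPolynomial (Fin 2) ℤ) (H : ℕ) (x y : ℤ), G.totalDegree ≤ N ∧ H98.AL.Star q G ∧
    2 ≤ H ∧ (∀ e, |G.coeff e| ≤ (H : ℤ)) ∧ H98.AL.vl G x y = 0 ∧ z = sz x y ∧ H ^ C < z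

theorem windowsQ {q : ℤ[X]} (hq : Deg3 q) {N : ℕ} (hN : 3 ≤ N) :
    ∃ S : Finset ℕ, S.card ≤ (RF q).ncard ∧
      ∀ C z : ℕ, CA N ≤ C → ExcQ q N C z → ∃ M ∈ S, M ≤ z ∧ z ≤ M ^ WA N := by
  classical
  have hf := RI_finite hq.1
  have hft : Fintype (RI q) := Fintype.ofFinite _
  have hnf : ∀ c : RI q, NumberField (RK q c) := RK_fin hq.1
  obtain ⟨S, hS, h⟩ := all_curvesM (k := RK q) (fun c => RK_rank hq.1 hq.2 c) N hN
  refine ⟨S, hS.trans (RK_card hq.1), fun C z hC hz => ?_⟩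
  obtain ⟨G, H, x, y, hG, hstar, hH2, hH, h0, rfl, hlt⟩ := hz
  obtain ⟨F, hFG, hirr, hdeg, hFinf, hF0, hFH⟩ := fac_star hq hH2 hG hH hstar h0
  have h2 : 2 ≤ H ^ (2 * (N + 1) ^ 2 + 1) := by
    calc 2 ≤ H := hH2
      _ = H ^ 1 := (pow_one H).symm
      _ ≤ _ := Nat.pow_le_pow_right (by omega) (by omega)
  have hF1 : InfP (fun K _ => ∃ c, Nonempty (RK q c →+* K)) F := by
    intro K _ _ hK X Y hXY
    rcases hFinf K hK X Y hXY with h3 | h3
    · exact Or.inl h3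
    · exact Or.inr (root_emb q hK h3)
  rcases h F hirr hdeg hF1 (H ^ (2 * (N + 1) ^ 2 + 1)) h2 hFH x y hF0 with h4 | ⟨M, hM, h4, h5⟩
  · exfalso
    have h5 := h4.trans (Nat.pow_le_pow_right (by omega) (Pool.Agent.H8.AF.cF_le hN))
    rw [← pow_mul] at h5
    have h6 : H ^ ((2 * (N + 1) ^ 2 + 1) * 2 ^ (2 * N ^ 2).factorial) ≤ H ^ C :=
      Nat.pow_le_pow_right (by omega) hC
    have h7 : sz x y = max x.natAbs y.natAbs := rfl
    omega
  · refine ⟨M, hM, h4, ?_⟩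
    rcases Nat.eq_zero_or_pos M with rfl | hM1
    · have h6 : 0 < Pool.Agent.H8.AF.wF N := by
        unfold Pool.Agent.H8.AF.wF
        positivity
      rw [zero_pow h6.ne'] at h5
      exact h5.trans (Nat.zero_le _)
    · exact h5.trans (Nat.pow_le_pow_right hM1 (Pool.Agent.H8.AF.wF_le hN))

/-- a list of sizes which grow by `WA N`-th powers has at most `(RF q).ncard` elements -/
theorem chain_lenQ {q : ℤ[X]} (hq : Deg3 q) {N C : ℕ} (hN : 3 ≤ N) (hC : CA N ≤ C) (l : List ℕ)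
    (hl : ∀ z ∈ l, ExcQ q N C z) (hp : l.Pairwise fun s t => t ^ WA N < s) :
    l.length ≤ (RF q).ncard := by
  obtain ⟨S, hS, h⟩ := windowsQ hq hN
  refine le_trans ?_ hS
  have h1 : ∀ z ∈ l, ∃ M ∈ S, M ≤ z ∧ z ≤ M ^ WA N := fun z hz => h C z hC (hl z hz)
  classical
  obtain ⟨g, hg⟩ : ∃ g : ℕ → ℕ, ∀ z ∈ l, g z ∈ S ∧ g z ≤ z ∧ z ≤ g z ^ WA N := by
    choose! g hg using h1
    exact ⟨g, hg⟩
  have hnd : (l.map g).Nodup := by
    rw [List.Nodup, List.pairwise_map]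
    refine List.Pairwise.imp_of_mem ?_ hp
    intro s t hs ht hst hgg
    have h2 := (hg s hs).2.2
    have h3 := (hg t ht).2.1
    rw [hgg] at h2
    have h4 := Nat.pow_le_pow_left h3 (WA N)
    omega
  calc l.length = (l.map g).length := (List.length_map _).symm
    _ = (l.map g).toFinset.card := (List.toFinset_card_of_nodup hnd).symm
    _ ≤ S.card := by
        refine Finset.card_le_card fun M hM => ?_
        rw [List.mem_toFinset, List.mem_map] at hM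
        obtain ⟨z, hz, rfl⟩ := hM
        exact (hg z hz).1

end Pool.Agent.H37.AL
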